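import Mathlib
import Pool.Agent.Helper61.FR.Defs

set_option autoImplicit false
open MeasureTheory Finset Filter Topology

/-! An oscillatory integral. -/

namespace Helper58.PW

open Pool.Agent.Helper61.FR

lemma norm_e' (y : ℝ) : ‖e y‖ = 1 := by
  unfold e
  rw [show (2 * Real.pi * y * Complex.I : ℂ) = ((2 * Real.pi * y : ℝ) : ℂ) * Complex.I by
    push_cast; ring]
  exact Complex.norm_exp_ofReal_mul_I _

/-- the exponential of base two -/
noncomputable def tp (v : ℝ) : ℝ := Real.exp (v * Real.log 2)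

lemma tp_pos (v : ℝ) : 0 < tp v := Real.exp_pos _

lemma tp_nat (k : ℕ) : tp k = 2 ^ k := by
  unfold tp
  rw [mul_comm, Real.exp_mul, Real.exp_log (by norm_num), Real.rpow_natCast]

lemma tp_zero : tp 0 = 1 := by
  unfold tp
  simp

lemma tp_add (v w : ℝ) : tp (v + w) = tp v * tp w := by
  unfold tp
  rw [add_mul, Real.exp_add]

lemma tp_logb (u : ℝ) (hu : 0 < u) : tp (Real.logb 2 u) = u := by
  unfold tp Real.logb
  rw [div_mul_cancel₀ _ (Real.log_pos (by norm_num)).ne', Real.exp_log hu]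

lemma tp_le {v w : ℝ} (h : v ≤ w) : tp v ≤ tp w := by
  unfold tp
  exact Real.exp_le_exp.2 (mul_le_mul_of_nonneg_right h (Real.log_pos (by norm_num)).le)

lemma hasDerivAt_tp (v : ℝ) : HasDerivAt tp (tp v * Real.log 2) v := by
  unfold tp
  have h1 : HasDerivAt (fun v : ℝ => v * Real.log 2) (1 * Real.log 2) v :=
    (hasDerivAt_id v).mul_const _
  rw [one_mul] at h1
  exact h1.exp

lemma continuous_tp : Continuous tp := by
  unfold tp
  fun_prop

lemma continuous_e : Continuous e := by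
  unfold e
  fun_prop

/-- the oscillating function -/
noncomputable def os (θ v : ℝ) : ℂ := e (θ * tp v)

lemma continuous_os (θ : ℝ) : Continuous (os θ) := by
  unfold os
  exact continuous_e.comp (continuous_const.mul continuous_tp)

lemma norm_os (θ v : ℝ) : ‖os θ v‖ = 1 := norm_e' _

lemma hasDerivAt_os (θ v : ℝ) :
    HasDerivAt (os θ) (os θ v * (2 * Real.pi * (θ * (tp v * Real.log 2)) * Complex.I)) v := by
  unfold os e
  have h1 : HasDerivAt (fun v : ℝ => ((θ * tp v : ℝ) : ℂ)) ((θ * (tp v * Real.log 2) : ℝ) : ℂ) v :=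
    ((hasDerivAt_tp v).const_mul θ).ofReal_comp
  have h2 := ((h1.const_mul (2 * Real.pi : ℂ)).mul_const Complex.I).cexp
  refine h2.congr_deriv ?_
  push_cast
  ring

/-- the primitive used in the integration by parts -/
noncomputable def pp (θ v : ℝ) : ℂ :=
  os θ v * ((1 / tp v : ℝ) : ℂ) / (2 * Real.pi * θ * Real.log 2 * Complex.I)

lemma hasDerivAt_pp (θ v : ℝ) (hθ : 0 < θ) :
    HasDerivAt (pp θ) (os θ v - os θ v * ((1 / tp v : ℝ) : ℂ) / (2 * Real.pi * θ * Complex.I)) v := by
  unfold pp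
  have ht := tp_pos v
  have hl : Real.log 2 ≠ 0 := (Real.log_pos (by norm_num)).ne'
  have h0 : HasDerivAt (fun v : ℝ => 1 / tp v) (-(Real.log 2) / tp v) v := by
    have := (hasDerivAt_tp v).inv ht.ne'
    simp only [one_div]
    refine (this.congr_deriv ?_)
    field_simp
  have h1 : HasDerivAt (fun v : ℝ => ((1 / tp v : ℝ) : ℂ)) ((-(Real.log 2) / tp v : ℝ) : ℂ) v :=
    h0.ofReal_comp
  have h2 := ((hasDerivAt_os θ v).mul h1).div_const (2 * Real.pi * θ * Real.log 2 * Complex.I)
  refine h2.congr_deriv ?_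
  have hθ' : (θ : ℂ) ≠ 0 := by exact_mod_cast hθ.ne'
  have ht' : ((tp v : ℝ) : ℂ) ≠ 0 := by exact_mod_cast ht.ne'
  have hl' : ((Real.log 2 : ℝ) : ℂ) ≠ 0 := by exact_mod_cast hl
  have hp' : ((Real.pi : ℝ) : ℂ) ≠ 0 := by exact_mod_cast Real.pi_ne_zero
  have hI := Complex.I_ne_zero
  push_cast
  field_simp
  ring

lemma osc (θ : ℝ) (hθ : 0 < θ) (L : ℕ) : ‖∫ v in (0 : ℝ)..L, os θ v‖ ≤ 1 / θ := by
  have hcont : Continuous fun v => os θ v * ((1 / tp v : ℝ) : ℂ) / (2 * Real.pi * θ * Complex.I) := by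
    have h1 : Continuous fun v => (1 / tp v : ℝ) :=
      continuous_const.div continuous_tp fun v => (tp_pos v).ne'
    exact ((continuous_os θ).mul (Complex.continuous_ofReal.comp h1)).div_const _
  have h1 : ∫ v in (0 : ℝ)..L, (os θ v - os θ v * ((1 / tp v : ℝ) : ℂ) / (2 * Real.pi * θ * Complex.I)) =
      pp θ L - pp θ 0 := by
    refine intervalIntegral.integral_eq_sub_of_hasDerivAt (fun v _ => hasDerivAt_pp θ v hθ) ?_
    exact ((continuous_os θ).sub hcont).intervalIntegrable _ _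
  rw [intervalIntegral.integral_sub ((continuous_os θ).intervalIntegrable _ _)
    (hcont.intervalIntegrable _ _)] at h1
  have hl : 0 < Real.log 2 := Real.log_pos (by norm_num)
  have hl1 : (0.69 : ℝ) ≤ Real.log 2 := by
    have := Real.log_two_gt_d9
    linarith
  have hpi := Real.pi_gt_three
  have hpp : ∀ v : ℝ, 0 ≤ v → ‖pp θ v‖ ≤ 1 / (4 * θ) := by
    intro v hv
    unfold pp
    rw [norm_div, norm_mul, norm_os, one_mul]
    have h2 : ‖(2 * Real.pi * θ * Real.log 2 * Complex.I : ℂ)‖ = 2 * Real.pi * θ * Real.log 2 := by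
      rw [show (2 * Real.pi * θ * Real.log 2 * Complex.I : ℂ) =
        ((2 * Real.pi * θ * Real.log 2 : ℝ) : ℂ) * Complex.I by push_cast; ring]
      rw [norm_mul, Complex.norm_I, mul_one, Complex.norm_real, Real.norm_eq_abs,
        abs_of_pos (by positivity)]
    rw [h2, Complex.norm_real, Real.norm_eq_abs, abs_of_pos (one_div_pos.2 (tp_pos v))]
    have h3 : 1 / tp v ≤ 1 := by
      rw [div_le_one (tp_pos v)]
      have := tp_le hv
      rwa [tp_zero] at this
    rw [div_le_div_iff₀ (by positivity) (by positivity)]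
    have h5 : 4 * θ ≤ 2 * Real.pi * θ * Real.log 2 := by
      have : 4 ≤ 2 * Real.pi * Real.log 2 := by nlinarith
      nlinarith
    calc 1 / tp v * (4 * θ) ≤ 1 * (4 * θ) := by gcongr
      _ ≤ 1 * (2 * Real.pi * θ * Real.log 2) := by linarith
  have h2 : ‖∫ v in (0 : ℝ)..L, os θ v * ((1 / tp v : ℝ) : ℂ) / (2 * Real.pi * θ * Complex.I)‖ ≤
      1 / (4 * θ) := by
    have h3 : ∀ v : ℝ, HasDerivAt (fun v => -(1 / (2 * Real.pi * θ * Real.log 2)) * (1 / tp v))
        (1 / (2 * Real.pi * θ) * (1 / tp v)) v := by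
      intro v
      have ht := tp_pos v
      have := (hasDerivAt_tp v).inv ht.ne'
      have h4 := this.const_mul (-(1 / (2 * Real.pi * θ * Real.log 2)))
      simp only [one_div]
      refine HasDerivAt.congr_deriv (by simpa only [one_div, Pi.inv_apply] using h4) ?_
      field_simp
    have hc2 : Continuous fun v => 1 / (2 * Real.pi * θ) * (1 / tp v) :=
      continuous_const.mul (continuous_const.div continuous_tp fun v => (tp_pos v).ne')
    have h4 := intervalIntegral.integral_eq_sub_of_hasDerivAt (a := (0 : ℝ)) (b := (L : ℝ))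
      (fun v _ => h3 v) (hc2.intervalIntegrable _ _)
    have h5 : ‖∫ v in (0 : ℝ)..L, os θ v * ((1 / tp v : ℝ) : ℂ) / (2 * Real.pi * θ * Complex.I)‖ ≤
        ∫ v in (0 : ℝ)..L, 1 / (2 * Real.pi * θ) * (1 / tp v) := by
      refine intervalIntegral.norm_integral_le_of_norm_le (Nat.cast_nonneg L) ?_
        (hc2.intervalIntegrable _ _)
      refine Eventually.of_forall fun v _ => le_of_eq ?_
      rw [norm_div, norm_mul, norm_os, one_mul, Complex.norm_real, Real.norm_eq_abs,
        abs_of_pos (one_div_pos.2 (tp_pos v))]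
      rw [show (2 * Real.pi * θ * Complex.I : ℂ) = ((2 * Real.pi * θ : ℝ) : ℂ) * Complex.I by
        push_cast; ring]
      rw [norm_mul, Complex.norm_I, mul_one, Complex.norm_real, Real.norm_eq_abs,
        abs_of_pos (by positivity)]
      ring
    refine h5.trans ?_
    rw [h4, tp_zero]
    have h6 : 0 < 1 / tp L := one_div_pos.2 (tp_pos _)
    have h7 : 1 / (2 * Real.pi * θ * Real.log 2) ≤ 1 / (4 * θ) := by
      rw [div_le_div_iff₀ (by positivity) (by positivity)]
      have : 4 ≤ 2 * Real.pi * Real.log 2 := by nlinarith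
      nlinarith
    have h8 : 0 ≤ 1 / (2 * Real.pi * θ * Real.log 2) * (1 / tp L) := by positivity
    linarith
  have e1 : ∫ v in (0 : ℝ)..L, os θ v = pp θ L - pp θ 0 +
      ∫ v in (0 : ℝ)..L, os θ v * ((1 / tp v : ℝ) : ℂ) / (2 * Real.pi * θ * Complex.I) := by
    rw [← h1]; ring
  rw [e1]
  refine (norm_add_le _ _).trans ?_
  have h3 := norm_sub_le (pp θ L) (pp θ 0)
  have h4 := hpp L (Nat.cast_nonneg L)
  have h5 := hpp 0 le_rfl
  have e2 : 1 / θ = 4 * (1 / (4 * θ)) := by field_simp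
  rw [e2]
  have h6 : 0 < 1 / (4 * θ) := by positivity
  linarith

end Helper58.PW
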