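import Mathlib
import Pool.Agent.Helper58.DW.Pair
import Pool.Agent.Helper58.PW.Osc

set_option autoImplicit false
open MeasureTheory Finset Filter Topology

/-! Equidistribution of the mantissas of the powers of three, for Lipschitz functions. -/

namespace Helper58.PW

open Pool.Agent.Helper61.FR Helper58.DW

/-- the binary logarithm of the mantissa -/
noncomputable def VV (l : ℕ) : ℝ := Real.logb 2 (uu l)

lemma VV_nonneg (l : ℕ) : 0 ≤ VV l := Real.logb_nonneg (by norm_num) (one_le_uu l)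

lemma VV_lt (l : ℕ) : VV l < 1 := by
  unfold VV
  have h1 : Real.logb 2 (uu l) < Real.logb 2 2 :=
    Real.logb_lt_logb (by norm_num) (by linarith [one_le_uu l]) (uu_lt_two l)
  rwa [Real.logb_self_eq_one (by norm_num)] at h1

lemma tp_VV (l : ℕ) : tp (VV l) = uu l := tp_logb _ (by linarith [one_le_uu l])

lemma riemann (N : ℕ) (hN : 1 ≤ N) (f : ℝ → ℂ) (Λ : ℝ) (hf : Continuous f)
    (hL : ∀ v w, 0 ≤ v → v ≤ 1 → 0 ≤ w → w ≤ 1 → ‖f v - f w‖ ≤ Λ * |v - w|) (hΛ : 0 ≤ Λ) :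
    ‖∑ j ∈ range N, ((1 / N : ℝ) : ℂ) * f (j / N) - ∫ v in (0 : ℝ)..1, f v‖ ≤ Λ / N := by
  have hN0 : (0 : ℝ) < N := by exact_mod_cast hN
  have h1 : ∑ j ∈ range N, ∫ v in ((j : ℝ) / N)..(((j + 1 : ℕ) : ℝ) / N), f v =
      ∫ v in (0 : ℝ)..1, f v := by
    have h2 := intervalIntegral.sum_integral_adjacent_intervals (μ := volume) (f := f)
      (a := fun k : ℕ => (k : ℝ) / N) (n := N) (fun k _ => hf.intervalIntegrable _ _)
    rw [h2]
    congr 1
    · simp
    · field_simp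
  rw [← h1, ← sum_sub_distrib]
  have h3 : ∀ j ∈ range N, ‖((1 / N : ℝ) : ℂ) * f (j / N) -
      ∫ v in ((j : ℝ) / N)..(((j + 1 : ℕ) : ℝ) / N), f v‖ ≤ Λ / N * (1 / N) := by
    intro j hj
    have hjN : (j : ℝ) + 1 ≤ N := by
      have := mem_range.1 hj
      exact_mod_cast this
    have hj0 : (0 : ℝ) ≤ j := Nat.cast_nonneg j
    have e1 : ((1 / N : ℝ) : ℂ) * f (j / N) =
        ∫ _v in ((j : ℝ) / N)..(((j + 1 : ℕ) : ℝ) / N), f (j / N) := by
      rw [intervalIntegral.integral_const]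
      rw [Complex.real_smul]
      congr 2
      push_cast
      field_simp
      ring
    rw [e1, ← intervalIntegral.integral_sub (by simp) (hf.intervalIntegrable _ _)]
    have h4 : ∀ v ∈ Set.uIoc ((j : ℝ) / N) (((j + 1 : ℕ) : ℝ) / N), ‖f (j / N) - f v‖ ≤ Λ / N := by
      intro v hv
      rw [Set.uIoc_of_le (by gcongr; simp)] at hv
      push_cast at hv
      have h5 : 0 ≤ (j : ℝ) / N := by positivity
      have h6 : ((j : ℝ) + 1) / N ≤ 1 := by rw [div_le_one hN0]; exact hjN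
      have h7 : ((j : ℝ) + 1) / N = j / N + 1 / N := by ring
      have h8 : (0 : ℝ) < 1 / N := by positivity
      refine (hL _ _ h5 (by linarith) (by linarith [hv.1]) (by linarith [hv.2])).trans ?_
      rw [div_eq_mul_one_div Λ]
      refine mul_le_mul_of_nonneg_left ?_ hΛ
      rw [abs_le]
      constructor
      · linarith [hv.2]
      · linarith [hv.1]
    refine (intervalIntegral.norm_integral_le_of_norm_le_const h4).trans (le_of_eq ?_)
    congr 1
    push_cast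
    rw [show ((j : ℝ) + 1) / N - j / N = 1 / N by ring, abs_of_pos (by positivity)]
  refine (norm_sum_le_of_le _ h3).trans (le_of_eq ?_)
  rw [sum_const, card_range, nsmul_eq_mul]
  field_simp

lemma equi_lip (N : ℕ) (hN : 1 ≤ N) (ε : ℝ) (hε : 0 < ε) : ∃ M0 : ℕ, ∀ M, M0 ≤ M →
    ∀ (f : ℝ → ℂ) (Λ : ℝ), Continuous f → 0 ≤ Λ →
      (∀ v w, 0 ≤ v → v ≤ 1 → 0 ≤ w → w ≤ 1 → ‖f v - f w‖ ≤ Λ * |v - w|) →
      (∀ v, ‖f v‖ ≤ 1) →
      ‖∑ l ∈ range M, f (VV l) - M * ∫ v in (0 : ℝ)..1, f v‖ ≤ (2 * Λ / N + ε) * M := by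
  classical
  have hN0 : (0 : ℝ) < N := by exact_mod_cast hN
  obtain ⟨C, hC, hcount⟩ := arcs (Real.logb 2 3) lam_irr (ε / (4 * N)) (by positivity)
  obtain ⟨M0, hM0⟩ := exists_nat_gt (C / (ε / (4 * N)))
  refine ⟨M0, fun M hM f Λ hf hΛ hL h1 => ?_⟩
  have hMr : C ≤ ε / (4 * N) * M := by
    have h2 : (M0 : ℝ) ≤ M := by exact_mod_cast hM
    rw [div_lt_iff₀ (by positivity)] at hM0
    have h3 : (M0 : ℝ) * (ε / (4 * N)) ≤ M * (ε / (4 * N)) := by gcongr
    linarith
  set c : ℕ → Finset ℕ := fun j => (range M).filter (fun l => ⌊(N : ℝ) * VV l⌋₊ = j) with hc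
  have hfl : ∀ l, ((⌊(N : ℝ) * VV l⌋₊ : ℕ) : ℝ) ≤ N * VV l :=
    fun l => Nat.floor_le (mul_nonneg hN0.le (VV_nonneg l))
  have hfu : ∀ l, (N : ℝ) * VV l < (⌊(N : ℝ) * VV l⌋₊ : ℕ) + 1 := fun l => Nat.lt_floor_add_one _
  have hcc : ∀ j, ((c j).card : ℝ) - M / N ≤ ε / (2 * N) * M := by
    intro j
    have h2 := hcount ((j : ℝ) / N) (((j : ℝ) + 1) / N) (by gcongr; linarith)
      (by
        rw [show ((j : ℝ) + 1) / N - j / N = 1 / N by ring, div_le_one hN0]
        exact_mod_cast hN) 0 M (c j) (filter_subset _ _) (by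
        intro l hl
        rw [hc, mem_filter] at hl
        refine ⟨ll l, ?_⟩
        have h3 := logb_uu l
        have h4 := hfl l
        have h5 := hfu l
        rw [hl.2] at h4 h5
        have e1 : 0 + (l : ℝ) * Real.logb 2 3 - ((ll l : ℕ) : ℤ) = VV l := by
          unfold VV
          rw [h3]
          push_cast
          ring
        rw [e1]
        constructor
        · rw [div_le_iff₀ hN0]; linarith
        · rw [le_div_iff₀ hN0]; linarith)
    rw [show ((j : ℝ) + 1) / N - j / N = 1 / N by ring] at h2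
    have h3 : (1 / (N : ℝ) + ε / (4 * N)) * M + C ≤ M / N + ε / (2 * N) * M := by
      have h4 : (1 / (N : ℝ) + ε / (4 * N)) * M + ε / (4 * N) * M = M / N + ε / (2 * N) * M := by
        field_simp
        ring
      linarith
    linarith
  have hmaps : ∀ l ∈ range M, ⌊(N : ℝ) * VV l⌋₊ ∈ range N := by
    intro l _
    rw [mem_range]
    have h2 : ((⌊(N : ℝ) * VV l⌋₊ : ℕ) : ℝ) < N := by
      refine lt_of_le_of_lt (hfl l) ?_
      have := VV_lt l
      nlinarith
    exact_mod_cast h2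
  have hsum : ∑ j ∈ range N, ((c j).card : ℝ) = M := by
    have h2 := Finset.card_eq_sum_card_fiberwise hmaps
    rw [card_range] at h2
    rw [hc]
    exact_mod_cast h2.symm
  have habs : ∑ j ∈ range N, |((c j).card : ℝ) - M / N| ≤ ε * M := by
    have h2 : ∀ j ∈ range N, |((c j).card : ℝ) - M / N| ≤
        2 * (ε / (2 * N) * M) - (((c j).card : ℝ) - M / N) := by
      intro j _
      have h3 := hcc j
      have h4 : 0 ≤ ε / (2 * N) * M := by positivity
      rcases abs_cases (((c j).card : ℝ) - M / N) with h5 | h5 <;> linarith [h5.1]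
    refine (sum_le_sum h2).trans (le_of_eq ?_)
    rw [sum_sub_distrib, sum_sub_distrib, hsum, sum_const, sum_const, card_range, nsmul_eq_mul,
      nsmul_eq_mul]
    field_simp
    ring
  -- decomposition
  have hfib : ∑ l ∈ range M, f ((⌊(N : ℝ) * VV l⌋₊ : ℕ) / N) =
      ∑ j ∈ range N, ((c j).card : ℂ) * f (j / N) := by
    rw [← Finset.sum_fiberwise_of_maps_to hmaps]
    refine sum_congr rfl fun j _ => ?_
    have h2 : ∀ l ∈ (range M).filter (fun l => ⌊(N : ℝ) * VV l⌋₊ = j),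
        f ((⌊(N : ℝ) * VV l⌋₊ : ℕ) / N) = f (j / N) := by
      intro l hl
      rw [(mem_filter.1 hl).2]
    rw [sum_congr rfl h2, sum_const, nsmul_eq_mul]
  have hA : ‖∑ l ∈ range M, (f (VV l) - f ((⌊(N : ℝ) * VV l⌋₊ : ℕ) / N))‖ ≤ Λ / N * M := by
    have h2 : ∀ l ∈ range M, ‖f (VV l) - f ((⌊(N : ℝ) * VV l⌋₊ : ℕ) / N)‖ ≤ Λ / N := by
      intro l _
      have h3 := hfl l
      have h4 := hfu l
      have h5 : ((⌊(N : ℝ) * VV l⌋₊ : ℕ) : ℝ) / N ≤ VV l := by
        rw [div_le_iff₀ hN0]; linarith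
      have h6 : VV l < ((⌊(N : ℝ) * VV l⌋₊ : ℕ) : ℝ) / N + 1 / N := by
        rw [← add_div, lt_div_iff₀ hN0]; linarith
      refine (hL _ _ (VV_nonneg l) (VV_lt l).le (by positivity)
        (h5.trans (VV_lt l).le)).trans ?_
      rw [div_eq_mul_one_div Λ]
      refine mul_le_mul_of_nonneg_left ?_ hΛ
      rw [abs_le]
      constructor
      · have : (0 : ℝ) < 1 / N := by positivity
        linarith
      · linarith
    refine (norm_sum_le_of_le _ h2).trans (le_of_eq ?_)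
    rw [sum_const, card_range, nsmul_eq_mul]
    ring
  have hB : ‖∑ j ∈ range N, (((c j).card : ℂ) - ((M / N : ℝ) : ℂ)) * f (j / N)‖ ≤ ε * M := by
    refine le_trans (norm_sum_le_of_le _ fun j _ => ?_) habs
    rw [norm_mul]
    have h2 : ‖((c j).card : ℂ) - ((M / N : ℝ) : ℂ)‖ = |((c j).card : ℝ) - M / N| := by
      rw [← Complex.ofReal_natCast, ← Complex.ofReal_sub, Complex.norm_real, Real.norm_eq_abs]
    rw [h2]
    exact mul_le_of_le_one_right (abs_nonneg _) (h1 _)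
  have hR := riemann N hN f Λ hf hL hΛ
  have e1 : ∑ l ∈ range M, f (VV l) - M * ∫ v in (0 : ℝ)..1, f v =
      ∑ l ∈ range M, (f (VV l) - f ((⌊(N : ℝ) * VV l⌋₊ : ℕ) / N)) +
      ∑ j ∈ range N, (((c j).card : ℂ) - ((M / N : ℝ) : ℂ)) * f (j / N) +
      M * (∑ j ∈ range N, ((1 / N : ℝ) : ℂ) * f (j / N) - ∫ v in (0 : ℝ)..1, f v) := by
    rw [sum_sub_distrib, hfib]
    simp only [sub_mul]
    rw [sum_sub_distrib, mul_sub, mul_sum]
    have h2 : ∑ j ∈ range N, (M : ℂ) * (((1 / N : ℝ) : ℂ) * f (j / N)) =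
        ∑ j ∈ range N, ((M / N : ℝ) : ℂ) * f (j / N) := by
      refine sum_congr rfl fun j _ => ?_
      push_cast
      ring
    rw [h2]
    ring
  rw [e1]
  refine (norm_add_le _ _).trans ?_
  have h2 := norm_add_le (∑ l ∈ range M, (f (VV l) - f ((⌊(N : ℝ) * VV l⌋₊ : ℕ) / N)))
    (∑ j ∈ range N, (((c j).card : ℂ) - ((M / N : ℝ) : ℂ)) * f (j / N))
  have h3 : ‖(M : ℂ) * (∑ j ∈ range N, ((1 / N : ℝ) : ℂ) * f (j / N) - ∫ v in (0 : ℝ)..1, f v)‖ ≤
      M * (Λ / N) := by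
    rw [norm_mul, Complex.norm_natCast]
    gcongr
  have h4 : (2 * Λ / N + ε) * M = Λ / N * M + ε * M + M * (Λ / N) := by ring
  rw [h4]
  linarith

end Helper58.PW
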