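import Mathlib
import Pool.Agent.Helper58.PW.Equi
import Pool.Agent.Helper61.FR.St.P10
import Pool.Agent.Helper61.FR.St.P6

set_option autoImplicit false
open MeasureTheory Finset Filter Topology

/-! Averages of a character over a strip of the semigroup, at the scale of the difference of two
points. -/

namespace Helper58.PW

open Pool.Agent.Helper61.FR Helper58.DW

lemma tp_lip {v w : ℝ} (hv0 : 0 ≤ v) (hv : v ≤ 1) (hw0 : 0 ≤ w) (hw : w ≤ 1) :
    |tp v - tp w| ≤ 2 * |v - w| := by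
  have key : ∀ a b : ℝ, 0 ≤ b → b ≤ a → a ≤ 1 → tp a - tp b ≤ 2 * (a - b) := by
    intro a b hb hba ha
    have h1 : ∀ x ∈ Set.Icc b a, ‖tp x * Real.log 2‖ ≤ 2 := by
      intro x hx
      have h2 : tp x ≤ 2 := by
        have := tp_le (hx.2.trans ha)
        have h3 : tp (1 : ℝ) = 2 := by
          have := tp_nat 1
          simpa using this
        linarith
      have h4 := Real.log_two_lt_d9
      have h5 : 0 < Real.log 2 := Real.log_pos (by norm_num)
      have h6 := tp_pos x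
      rw [Real.norm_eq_abs, abs_of_pos (by positivity)]
      nlinarith
    have h2 := (convex_Icc b a).norm_image_sub_le_of_norm_hasDerivWithin_le
      (f := tp) (f' := fun x => tp x * Real.log 2) (C := 2) (x := b) (y := a)
      (fun x _ => (hasDerivAt_tp x).hasDerivWithinAt) h1 ⟨le_rfl, hba⟩ ⟨hba, le_rfl⟩
    rw [Real.norm_eq_abs, Real.norm_eq_abs, abs_of_nonneg (sub_nonneg.2 hba)] at h2
    exact (le_abs_self _).trans h2
  rcases le_total v w with h | h
  · rw [abs_sub_comm, abs_of_nonneg (sub_nonneg.2 (tp_le h)), abs_sub_comm,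
      abs_of_nonneg (sub_nonneg.2 h)]
    exact key w v hv0 h hw
  · rw [abs_of_nonneg (sub_nonneg.2 (tp_le h)), abs_of_nonneg (sub_nonneg.2 h)]
    exact key v w hw0 h hv

lemma decay_pos (L r : ℕ) (hL : 1 ≤ L) : ∃ M0 : ℕ, ∀ M, M0 ≤ M → ∀ θ : ℝ, 1 / 2 ≤ θ → θ ≤ r →
    ‖∑ k ∈ range L, ∑ l ∈ range M, e (θ * (2 ^ k * uu l))‖ ≤ 3 * M := by
  have hLr : (1 : ℝ) ≤ L := by exact_mod_cast hL
  obtain ⟨N, hN⟩ := exists_nat_gt (2 * (16 * r * 2 ^ L) * (2 * L) : ℝ)
  have hN' : (2 * (16 * r * 2 ^ L) * (2 * L) : ℝ) < (N + 1 : ℕ) := by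
    push_cast
    linarith
  obtain ⟨M0, hM0⟩ := equi_lip (N + 1) (by omega) (1 / (2 * L)) (by positivity)
  refine ⟨M0, fun M hM θ h1 h2 => ?_⟩
  have hθ : 0 < θ := by linarith
  set g : ℝ → ℂ := fun v => (∑ k ∈ range L, os θ (k + v)) / L with hg
  have hgc : Continuous g := by
    have := continuous_os θ
    rw [hg]
    fun_prop
  have hgn : ∀ v, ‖g v‖ ≤ 1 := by
    intro v
    rw [hg]
    simp only
    rw [norm_div, Complex.norm_natCast, div_le_one (by linarith)]
    refine (norm_sum_le_of_le _ fun k _ => (norm_os θ _).le).trans ?_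
    rw [sum_const, card_range, nsmul_eq_mul, mul_one]
  have hpi := Real.pi_lt_d2
  have hpi0 := Real.pi_pos
  have hgl : ∀ v w, 0 ≤ v → v ≤ 1 → 0 ≤ w → w ≤ 1 → ‖g v - g w‖ ≤ (16 * r * 2 ^ L) * |v - w| := by
    intro v w hv0 hv hw0 hw
    have h3 : ∀ k ∈ range L, ‖os θ (k + v) - os θ (k + w)‖ ≤ (16 * r * 2 ^ L) * |v - w| := by
      intro k hk
      unfold os
      refine (norm_e_sub_le _ _).trans ?_
      rw [tp_add, tp_add, tp_nat]
      have e1 : θ * (2 ^ k * tp v) - θ * (2 ^ k * tp w) = θ * 2 ^ k * (tp v - tp w) := by ring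
      rw [e1, abs_mul, abs_of_pos (by positivity)]
      have h4 := tp_lip hv0 hv hw0 hw
      have h5 : (2 : ℝ) ^ k ≤ 2 ^ L :=
        pow_le_pow_right₀ (by norm_num) (mem_range.1 hk).le
      have h6 : 0 ≤ |v - w| := abs_nonneg _
      calc 2 * Real.pi * (θ * 2 ^ k * |tp v - tp w|) ≤
          2 * Real.pi * (r * 2 ^ L * (2 * |v - w|)) := by gcongr
        _ ≤ 2 * 4 * (r * 2 ^ L * (2 * |v - w|)) := by
          have : (0 : ℝ) ≤ r * 2 ^ L * (2 * |v - w|) := by positivity
          nlinarith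
        _ = (16 * r * 2 ^ L) * |v - w| := by ring
    rw [hg]
    simp only
    rw [← sub_div, ← sum_sub_distrib, norm_div, Complex.norm_natCast, div_le_iff₀ (by linarith)]
    refine (norm_sum_le_of_le _ h3).trans (le_of_eq ?_)
    rw [sum_const, card_range, nsmul_eq_mul]
    ring
  have h3 := hM0 M hM g (16 * r * 2 ^ L) hgc (by positivity) hgl hgn
  have hint : ‖∫ v in (0 : ℝ)..1, g v‖ ≤ 2 / L := by
    have e1 : ∫ v in (0 : ℝ)..1, g v = (∫ v in (0 : ℝ)..L, os θ v) / L := by
      rw [hg]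
      simp only [div_eq_mul_inv]
      rw [intervalIntegral.integral_mul_const, intervalIntegral.integral_finsetSum]
      · congr 1
        have h4 := intervalIntegral.sum_integral_adjacent_intervals (μ := volume) (f := os θ)
          (a := fun k : ℕ => (k : ℝ)) (n := L)
          (fun k _ => (continuous_os θ).intervalIntegrable _ _)
        simp only [Nat.cast_zero] at h4
        rw [← h4]
        refine sum_congr rfl fun k _ => ?_
        rw [intervalIntegral.integral_comp_add_left (fun v => os θ v) (k : ℝ)]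
        congr 1
        · ring
        · push_cast; ring
      · intro k _
        have := continuous_os θ
        exact Continuous.intervalIntegrable (by fun_prop) _ _
    rw [e1, norm_div, Complex.norm_natCast]
    have h4 := osc θ hθ L
    have h5 : 1 / θ ≤ 2 := by
      rw [div_le_iff₀ hθ]; linarith
    gcongr
    linarith
  have h4 : ‖∑ l ∈ range M, g (VV l)‖ ≤ 3 / L * M := by
    have e1 : ∑ l ∈ range M, g (VV l) = (∑ l ∈ range M, g (VV l) - M * ∫ v in (0 : ℝ)..1, g v) +
        M * ∫ v in (0 : ℝ)..1, g v := by ring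
    rw [e1]
    refine (norm_add_le _ _).trans ?_
    rw [norm_mul, Complex.norm_natCast]
    have h5 : (2 * (16 * r * 2 ^ L) / (N + 1 : ℕ) : ℝ) ≤ 1 / (2 * L) := by
      rw [div_le_div_iff₀ (by positivity) (by positivity)]
      linarith
    have hMr : (0 : ℝ) ≤ M := Nat.cast_nonneg M
    calc ‖∑ l ∈ range M, g (VV l) - M * ∫ v in (0 : ℝ)..1, g v‖ + M * ‖∫ v in (0 : ℝ)..1, g v‖ ≤
        (2 * (16 * r * 2 ^ L) / (N + 1 : ℕ) + 1 / (2 * L)) * M + M * (2 / L) := by gcongr
      _ ≤ (1 / (2 * L) + 1 / (2 * L)) * M + M * (2 / L) := by gcongr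
      _ = 3 / L * M := by field_simp; ring
  have e2 : ∑ l ∈ range M, g (VV l) =
      (∑ k ∈ range L, ∑ l ∈ range M, e (θ * (2 ^ k * uu l))) / L := by
    rw [sum_comm, sum_div]
    refine sum_congr rfl fun l _ => ?_
    rw [hg]
    simp only
    congr 1
    refine sum_congr rfl fun k _ => ?_
    unfold os
    rw [tp_add, tp_nat, tp_VV]
  rw [e2, norm_div, Complex.norm_natCast, div_le_iff₀ (by linarith)] at h4
  refine h4.trans (le_of_eq ?_)
  field_simp

/-- decay of the averages at the scale of the difference -/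
theorem decay (L r : ℕ) (hL : 1 ≤ L) : ∃ M0 : ℕ, ∀ M, M0 ≤ M → ∀ θ : ℝ, 1 / 2 ≤ |θ| → |θ| ≤ r →
    ‖∑ k ∈ range L, ∑ l ∈ range M, e (θ * (2 ^ k * uu l))‖ ≤ 3 * M := by
  obtain ⟨M0, hM0⟩ := decay_pos L r hL
  refine ⟨M0, fun M hM θ h1 h2 => ?_⟩
  rcases le_or_gt 0 θ with h | h
  · rw [abs_of_nonneg h] at h1 h2
    exact hM0 M hM θ h1 h2
  · rw [abs_of_neg h] at h1 h2
    have h3 := hM0 M hM (-θ) h1 h2
    have e1 : ∑ k ∈ range L, ∑ l ∈ range M, e (θ * (2 ^ k * uu l)) =
        (starRingEnd ℂ) (∑ k ∈ range L, ∑ l ∈ range M, e (-θ * (2 ^ k * uu l))) := by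
      rw [map_sum]
      refine sum_congr rfl fun k _ => ?_
      rw [map_sum]
      refine sum_congr rfl fun l _ => ?_
      rw [← P6.e_neg]
      congr 1
      ring
    rw [e1, RCLike.norm_conj]
    exact h3

end Helper58.PW
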