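import Mathlib
import Pool.Agent.Helper58.DW.Win
import Pool.Agent.Helper75.LP.St.L1

set_option autoImplicit false
open MeasureTheory Finset Filter Topology

/-! Joint limits of the empirical measures of pairs of points along strips. -/

namespace Helper58.PW

open Helper75.LP Helper58.DW

section general

variable {ι : Type*}

/-- the empirical measure -/
noncomputable def emp (s : Finset ι) (p : ι → Tor × Tor) : Measure (Tor × Tor) :=
  (s.card : ENNReal)⁻¹ • ∑ i ∈ s, Measure.dirac (p i)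

lemma emp_prob (s : Finset ι) (p : ι → Tor × Tor) (hs : s.Nonempty) :
    IsProbabilityMeasure (emp s p) := by
  constructor
  unfold emp
  rw [Measure.smul_apply, Measure.finsetSum_apply]
  simp only [measure_univ, sum_const, smul_eq_mul, nsmul_eq_mul, mul_one]
  rw [ENNReal.inv_mul_cancel]
  · exact_mod_cast hs.card_pos.ne'
  · exact ENNReal.natCast_ne_top _

lemma emp_integral (s : Finset ι) (p : ι → Tor × Tor) (F : C(Tor × Tor, ℂ)) :
    ∫ x, F x ∂(emp s p) = (∑ i ∈ s, F (p i)) / (s.card : ℂ) := by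
  unfold emp
  have hi : ∀ q : Tor × Tor, Integrable (fun p => F p) (Measure.dirac q) := fun q =>
    F.continuous.integrable_of_hasCompactSupport (HasCompactSupport.of_compactSpace _)
  rw [integral_smul_measure, integral_finsetSum_measure (fun i _ => hi _)]
  rw [ENNReal.toReal_inv, ENNReal.toReal_natCast, Complex.real_smul, div_eq_inv_mul]
  push_cast
  congr 1
  exact sum_congr rfl fun b _ => integral_dirac _ _

/-- limits of empirical measures -/
theorem exists_lim (U : Ultrafilter ℕ) (s : ℕ → Finset ι) (p : ℕ → ι → Tor × Tor)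
    (hs : ∀ᶠ j in (U : Filter ℕ), (s j).Nonempty) :
    ∃ J : Measure (Tor × Tor), IsProbabilityMeasure J ∧
      ∀ F : C(Tor × Tor, ℂ), Tendsto (fun j => (∑ i ∈ s j, F (p j i)) / ((s j).card : ℂ)) U
        (𝓝 (∫ p, F p ∂J)) := by
  classical
  let E : ℕ → ProbabilityMeasure (Tor × Tor) := fun j =>
    if h : (s j).Nonempty then ⟨emp (s j) (p j), emp_prob _ _ h⟩
    else ⟨Measure.dirac 0, inferInstance⟩
  obtain ⟨J, -, hJ⟩ := isCompact_univ.ultrafilter_le_nhds (U.map E) (by simp)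
  have hJ' : Tendsto E U (𝓝 J) := hJ
  refine ⟨J, inferInstance, fun F => ?_⟩
  rw [ProbabilityMeasure.tendsto_iff_forall_integral_rclike_tendsto ℂ] at hJ'
  have h1 := hJ' (BoundedContinuousFunction.mkOfCompact F)
  refine (Tendsto.congr' ?_ h1)
  filter_upwards [hs] with j h2
  have h5 : E j = ⟨emp (s j) (p j), emp_prob _ _ h2⟩ := dif_pos h2
  have h4 : (E j : Measure (Tor × Tor)) = emp (s j) (p j) := by
    rw [h5]
    rfl
  rw [h4]
  exact emp_integral _ _ F

/-- invariance of the limit -/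
theorem preserving_of_lim (U : Ultrafilter ℕ) (s : ℕ → Finset ι) (p : ℕ → ι → Tor × Tor)
    (J : Measure (Tor × Tor)) [IsProbabilityMeasure J]
    (hlim : ∀ F : C(Tor × Tor, ℂ), Tendsto (fun j => (∑ i ∈ s j, F (p j i)) / ((s j).card : ℂ)) U
        (𝓝 (∫ p, F p ∂J))) (r : ℕ)
    (hr : ∀ F : C(Tor × Tor, ℂ), Tendsto (fun j => (∑ i ∈ s j, F (T2 r (p j i))) / ((s j).card : ℂ) -
      (∑ i ∈ s j, F (p j i)) / ((s j).card : ℂ)) U (𝓝 0)) :
    MeasurePreserving (T2 r) J J := by
  refine ⟨(L1T2_cont r).measurable, ?_⟩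
  have : IsProbabilityMeasure (J.map (T2 r)) :=
    Measure.isProbabilityMeasure_map (L1T2_cont r).measurable.aemeasurable
  refine ext_of_forall_integral_eq_of_IsFiniteMeasure fun f => ?_
  rw [integral_map (L1T2_cont r).measurable.aemeasurable
    f.continuous.aestronglyMeasurable]
  let F : C(Tor × Tor, ℂ) := ⟨fun p => (f p : ℂ), by fun_prop⟩
  let G : C(Tor × Tor, ℂ) := ⟨fun p => (f (T2 r p) : ℂ), by
    have := L1T2_cont r
    fun_prop⟩
  have h1 := hlim F
  have h2 := hlim G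
  have h3 := h2.sub h1
  have h4 := tendsto_nhds_unique h3 (hr F)
  rw [sub_eq_zero] at h4
  have h5 : ∫ p, (G p : ℂ) ∂J = ((∫ p, f (T2 r p) ∂J : ℝ) : ℂ) := integral_ofReal
  have h6 : ∫ p, (F p : ℂ) ∂J = ((∫ p, f p ∂J : ℝ) : ℂ) := integral_ofReal
  rw [h5, h6] at h4
  exact_mod_cast h4

end general

/-! ### the strip -/

lemma ll_mono {l l' : ℕ} (h : l ≤ l') : ll l ≤ ll l' :=
  Nat.log_mono_right (Nat.pow_le_pow_right (by norm_num) h)

lemma ll_succ_le (l : ℕ) : ll (l + 1) ≤ ll l + 2 := by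
  have h1 := ll_le (l + 1)
  have h2 := lt_ll l
  have h3 : 2 ^ ll (l + 1) < 2 ^ (ll l + 3) := by
    refine lt_of_le_of_lt h1 ?_
    rw [pow_succ 3 l, pow_succ 2 (ll l + 2), pow_succ 2 (ll l + 1)]
    omega
  rw [Nat.pow_lt_pow_iff_right (by norm_num)] at h3
  omega

lemma two_mul_sq {n l : ℕ} (h : ll l ≤ n) : 2 * sq n l = sq (n + 1) l := by
  unfold Helper58.DW.sq
  rw [show n + 1 - ll l = (n - ll l) + 1 by omega, pow_succ]
  ring

lemma three_mul_sq {n l : ℕ} (h : ll l ≤ n) :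
    3 * sq n l = sq (n + (ll (l + 1) - ll l)) (l + 1) := by
  unfold Helper58.DW.sq
  have h1 := ll_mono (Nat.le_succ l)
  rw [show n + (ll (l + 1) - ll l) - ll (l + 1) = n - ll l by
    have : ll l ≤ ll (l + 1) := h1
    omega, pow_succ]
  ring

/-- shift by a bounded amount -/
lemma shift_le (g : ℕ → ℂ) (C : ℝ) (hg : ∀ a, ‖g a‖ ≤ C) (L e : ℕ) :
    ‖∑ k ∈ range L, g (k + e) - ∑ k ∈ range L, g k‖ ≤ 2 * e * C := by
  have h1 : ∑ k ∈ range L, g (k + e) + ∑ k ∈ range e, g k =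
      ∑ k ∈ range L, g k + ∑ k ∈ range e, g (L + k) := by
    rw [← sum_range_add g L e, add_comm L e, sum_range_add g e L, add_comm]
    congr 1
    exact sum_congr rfl fun k _ => by rw [add_comm]
  have h2 : ∑ k ∈ range L, g (k + e) - ∑ k ∈ range L, g k =
      ∑ k ∈ range e, g (L + k) - ∑ k ∈ range e, g k := by
    linear_combination h1
  rw [h2]
  have h3 : ‖∑ k ∈ range e, g (L + k)‖ ≤ e * C := by
    refine (norm_sum_le_of_le _ fun k _ => hg _).trans (le_of_eq ?_)
    rw [sum_const, card_range, nsmul_eq_mul]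
  have h4 : ‖∑ k ∈ range e, g k‖ ≤ e * C := by
    refine (norm_sum_le_of_le _ fun k _ => hg _).trans (le_of_eq ?_)
    rw [sum_const, card_range, nsmul_eq_mul]
  have h5 := norm_sub_le (∑ k ∈ range e, g (L + k)) (∑ k ∈ range e, g k)
  linarith

lemma tel2 (M L : ℕ) (g : ℕ → ℕ → ℂ) (C : ℝ) (hg : ∀ a b, ‖g a b‖ ≤ C)
    (hM : 1 ≤ M) (hL : 1 ≤ L) :
    ‖(∑ i ∈ range L ×ˢ range M, g (i.1 + 1) i.2) / ((range L ×ˢ range M).card : ℂ) -
      (∑ i ∈ range L ×ˢ range M, g i.1 i.2) / ((range L ×ˢ range M).card : ℂ)‖ ≤ 2 * C / L := by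
  have hM0 : (0 : ℝ) < M := by exact_mod_cast hM
  have hL0 : (0 : ℝ) < L := by exact_mod_cast hL
  rw [← sub_div, norm_div, card_product, card_range, card_range, Complex.norm_natCast, Nat.cast_mul,
    sum_product, sum_product, sum_comm, sum_comm (s := range L) (t := range M), ← sum_sub_distrib]
  rw [div_le_div_iff₀ (by positivity) hL0]
  have h1 : ‖∑ l ∈ range M, (∑ k ∈ range L, g (k + 1) l - ∑ k ∈ range L, g k l)‖ ≤ M * (2 * C) := by
    refine (norm_sum_le_of_le _ fun l _ => shift_le (fun k => g k l) C (fun k => hg k l) L 1).trans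
      (le_of_eq ?_)
    rw [sum_const, card_range, nsmul_eq_mul]
    push_cast
    ring
  nlinarith [mul_le_mul_of_nonneg_right h1 hL0.le]

lemma tel3 (M L : ℕ) (g : ℕ → ℕ → ℂ) (C : ℝ) (hC : 0 ≤ C) (hg : ∀ a b, ‖g a b‖ ≤ C)
    (hM : 1 ≤ M) (hL : 1 ≤ L) (d : ℕ → ℕ) (hd : ∀ l, d l ≤ 2) :
    ‖(∑ i ∈ range L ×ˢ range M, g (i.1 + d i.2) (i.2 + 1)) / ((range L ×ˢ range M).card : ℂ) -
      (∑ i ∈ range L ×ˢ range M, g i.1 i.2) / ((range L ×ˢ range M).card : ℂ)‖ ≤
        4 * C / L + 2 * C / M := by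
  have hM0 : (0 : ℝ) < M := by exact_mod_cast hM
  have hL0 : (0 : ℝ) < L := by exact_mod_cast hL
  rw [← sub_div, norm_div, card_product, card_range, card_range, Complex.norm_natCast, Nat.cast_mul,
    sum_product, sum_product]
  rw [div_le_iff₀ (by positivity)]
  have e1 : ∑ k ∈ range L, ∑ l ∈ range M, g (k + d l) (l + 1) -
      ∑ k ∈ range L, ∑ l ∈ range M, g k l =
      ∑ l ∈ range M, (∑ k ∈ range L, g (k + d l) (l + 1) - ∑ k ∈ range L, g k (l + 1)) +
      ∑ k ∈ range L, (∑ l ∈ range M, g k (l + 1) - ∑ l ∈ range M, g k l) := by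
    rw [sum_sub_distrib, sum_sub_distrib, sum_comm (s := range L) (t := range M)
      (f := fun k l => g (k + d l) (l + 1)), sum_comm (s := range M) (t := range L)
      (f := fun l k => g k (l + 1))]
    ring
  rw [e1]
  have h1 : ‖∑ l ∈ range M, (∑ k ∈ range L, g (k + d l) (l + 1) - ∑ k ∈ range L, g k (l + 1))‖ ≤
      M * (4 * C) := by
    have h2 : ∀ l ∈ range M, ‖∑ k ∈ range L, g (k + d l) (l + 1) - ∑ k ∈ range L, g k (l + 1)‖ ≤
        4 * C := by
      intro l _
      refine (shift_le (fun k => g k (l + 1)) C (fun k => hg k _) L (d l)).trans ?_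
      have h3 : ((d l : ℕ) : ℝ) ≤ 2 := by exact_mod_cast hd l
      nlinarith
    refine (norm_sum_le_of_le _ h2).trans (le_of_eq ?_)
    rw [sum_const, card_range, nsmul_eq_mul]
  have h2 : ‖∑ k ∈ range L, (∑ l ∈ range M, g k (l + 1) - ∑ l ∈ range M, g k l)‖ ≤
      L * (2 * C) := by
    refine (norm_sum_le_of_le _ fun k _ => shift_le (fun l => g k l) C (fun l => hg k l) M 1).trans
      (le_of_eq ?_)
    rw [sum_const, card_range, nsmul_eq_mul]
    push_cast
    ring
  refine (norm_add_le _ _).trans ?_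
  have h3 : (4 * C / L + 2 * C / M) * (L * M) = M * (4 * C) + L * (2 * C) := by
    field_simp
  rw [h3]
  linarith

/-- the pair of points with indices `k`, `l` -/
def spt (q : ℕ) (x y : Tor) (i : ℕ × ℕ) : Tor × Tor :=
  (sq (q + i.1) i.2 • x, sq (q + i.1) i.2 • y)

lemma spt_two (q : ℕ) (x y : Tor) (k l : ℕ) (h : ll l ≤ q) :
    T2 2 (spt q x y (k, l)) = spt q x y (k + 1, l) := by
  unfold T2 spt
  simp only [smul_smul]
  rw [two_mul_sq (by omega : ll l ≤ q + k), add_assoc]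

lemma spt_three (q : ℕ) (x y : Tor) (k l : ℕ) (h : ll l ≤ q) :
    T2 3 (spt q x y (k, l)) = spt q x y (k + (ll (l + 1) - ll l), l + 1) := by
  unfold T2 spt
  simp only [smul_smul]
  rw [three_mul_sq (by omega : ll l ≤ q + k), add_assoc]

theorem strip_limit (U : Ultrafilter ℕ) (q M L : ℕ → ℕ) (hM : Tendsto M U atTop)
    (hL : Tendsto L U atTop) (hq : ∀ j, ll (M j) ≤ q j) (x y : ℕ → Tor) :
    ∃ J : Measure (Tor × Tor), IsProbabilityMeasure J ∧
      (∀ F : C(Tor × Tor, ℂ), Tendsto (fun j => (∑ i ∈ range (L j) ×ˢ range (M j),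
        F (spt (q j) (x j) (y j) i)) / ((range (L j) ×ˢ range (M j)).card : ℂ)) U
        (𝓝 (∫ p, F p ∂J))) ∧
      MeasurePreserving (T2 2) J J ∧ MeasurePreserving (T2 3) J J := by
  have hM1 : ∀ᶠ j in (U : Filter ℕ), 1 ≤ M j := hM.eventually_ge_atTop 1
  have hL1 : ∀ᶠ j in (U : Filter ℕ), 1 ≤ L j := hL.eventually_ge_atTop 1
  obtain ⟨J, hJp, hJ⟩ := exists_lim U (fun j => range (L j) ×ˢ range (M j))
    (fun j => spt (q j) (x j) (y j)) (by
      filter_upwards [hM1, hL1] with j h1 h2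
      exact (nonempty_range_iff.2 (by omega)).product (nonempty_range_iff.2 (by omega)))
  have hb : ∀ F : C(Tor × Tor, ℂ), ∃ C : ℝ, 0 ≤ C ∧ ∀ p, ‖F p‖ ≤ C := fun F =>
    ⟨‖F‖, norm_nonneg _, fun p => F.norm_coe_le_norm p⟩
  have hMr : Tendsto (fun j => ((M j : ℕ) : ℝ)) U atTop := tendsto_natCast_atTop_atTop.comp hM
  have hLr : Tendsto (fun j => ((L j : ℕ) : ℝ)) U atTop := tendsto_natCast_atTop_atTop.comp hL
  have hll : ∀ j l, l < M j → ll l ≤ q j := fun j l h => (ll_mono h.le).trans (hq j)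
  refine ⟨J, hJp, hJ, preserving_of_lim U _ _ J hJ 2 fun F => ?_,
    preserving_of_lim U _ _ J hJ 3 fun F => ?_⟩
  · obtain ⟨C, hC, hF⟩ := hb F
    refine squeeze_zero_norm' (a := fun j => 2 * C / L j) ?_ (hLr.const_div_atTop (2 * C))
    filter_upwards [hM1, hL1] with j h2 h3
    have h4 := tel2 (M j) (L j) (fun k l => F (spt (q j) (x j) (y j) (k, l))) C
      (fun a b => hF _) h2 h3
    refine le_of_eq_of_le ?_ h4
    congr 3
    refine sum_congr rfl fun i hi => ?_
    rw [mem_product, mem_range, mem_range] at hi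
    rw [← spt_two (q j) (x j) (y j) i.1 i.2 (hll j _ hi.2)]
  · obtain ⟨C, hC, hF⟩ := hb F
    refine squeeze_zero_norm' (a := fun j => 4 * C / L j + 2 * C / M j) ?_ ?_
    · filter_upwards [hM1, hL1] with j h2 h3
      have h4 := tel3 (M j) (L j) (fun k l => F (spt (q j) (x j) (y j) (k, l))) C hC
        (fun a b => hF _) h2 h3 (fun l => ll (l + 1) - ll l) (fun l => by
          have := ll_succ_le l
          omega)
      refine le_of_eq_of_le ?_ h4
      congr 3
      refine sum_congr rfl fun i hi => ?_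
      rw [mem_product, mem_range, mem_range] at hi
      rw [← spt_three (q j) (x j) (y j) i.1 i.2 (hll j _ hi.2)]
    · have := (hLr.const_div_atTop (4 * C)).add (hMr.const_div_atTop (2 * C))
      simpa using this

end Helper58.PW
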