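import Mathlib
import Pool.Agent.Helper75.LP.St.L6
import Pool.Agent.Helper58.PW.Decay
import Pool.Agent.Helper58.PW.Limit

set_option autoImplicit false
open MeasureTheory Finset Filter Topology

/-! Of two points at distance about `2 ^ (- q)` one is half equidistributed along the strip
starting at `2 ^ q`. -/

namespace Helper58.PW

open Helper75.LP Helper58.DW
open Pool.Agent.Helper61.FR (e fourier_eq_e)

/-- average of a character over the points `s x`, `s ∈ B` -/
noncomputable def bav (B : Finset ℕ) (m : ℤ) (x : Tor) : ℂ :=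
  (∑ s ∈ B, (fourier m (s • x) : ℂ)) / (B.card : ℂ)

/-- points at which the average over `B` is, up to `1 / (n + 1)` on the characters of frequency at
most `n`, a probability measure above one half of Lebesgue measure -/
def UU (n : ℕ) (B : Finset ℕ) : Set Tor :=
  {x | ∃ ν : Measure Tor, Half ν ∧ ∀ m : ℤ, |m| ≤ n →
    ‖bav B m x - ∫ y, (fourier m y : ℂ) ∂ν‖ < 1 / (n + 1)}

open Classical in
/-- the strip: the numbers `2 ^ i * 3 ^ l`, `l < M`, between `2 ^ q` and `2 ^ (q + L)` -/
noncomputable def strip (q M L : ℕ) : Finset ℕ :=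
  (range (2 ^ (q + L))).filter (fun s => 2 ^ q ≤ s ∧ ∃ i l : ℕ, l < M ∧ s = 2 ^ i * 3 ^ l)

lemma strip_inj (q M L : ℕ) (hq : ll M ≤ q) :
    Set.InjOn (fun i : ℕ × ℕ => sq (q + i.1) i.2) (range L ×ˢ range M : Finset (ℕ × ℕ)) := by
  rintro ⟨k, l⟩ hi ⟨k', l'⟩ hi' h
  simp only [coe_product, Set.mem_prod, coe_range, Set.mem_Iio] at hi hi' h
  have h1 : ll l ≤ q + k := by have := ll_mono hi.2.le; omega
  have h2 : ll l' ≤ q + k' := by have := ll_mono hi'.2.le; omega
  have h3 := sq_mem h1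
  have h4 := sq_mem h2
  rw [h] at h3
  have h5 : 2 ^ (q + k) < 2 ^ (q + k' + 1) := lt_of_le_of_lt h3.1 h4.2
  have h6 : 2 ^ (q + k') < 2 ^ (q + k + 1) := lt_of_le_of_lt h4.1 h3.2
  rw [Nat.pow_lt_pow_iff_right (by norm_num)] at h5 h6
  have h7 : k = k' := by omega
  subst h7
  rw [sq_inj _ h]

lemma strip_eq (q M L : ℕ) (hq : ll M ≤ q) :
    strip q M L = (range L ×ˢ range M).image (fun i => sq (q + i.1) i.2) := by
  classical
  ext s
  unfold strip
  rw [mem_filter, mem_range, mem_image]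
  constructor
  · rintro ⟨h1, h2, i, l, hl, rfl⟩
    have h4 : 2 ^ (i + ll l) < 2 ^ (q + L) := by
      refine lt_of_le_of_lt ?_ h1
      rw [pow_add]
      exact Nat.mul_le_mul_left _ (ll_le l)
    have h5 : 2 ^ q < 2 ^ (i + ll l + 1) := by
      refine lt_of_le_of_lt h2 ?_
      rw [add_assoc, pow_add]
      exact Nat.mul_lt_mul_of_pos_left (lt_ll l) (by positivity)
    rw [Nat.pow_lt_pow_iff_right (by norm_num)] at h4 h5
    refine ⟨(i + ll l - q, l), ?_, ?_⟩
    · rw [mem_product, mem_range, mem_range]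
      exact ⟨by simp only; omega, hl⟩
    · simp only
      unfold Helper58.DW.sq
      rw [mul_comm]
      congr 2
      omega
  · rintro ⟨⟨k, l⟩, hl, rfl⟩
    rw [mem_product, mem_range, mem_range] at hl
    simp only at hl ⊢
    have h1 : ll l ≤ q + k := by have := ll_mono hl.2.le; omega
    have h := sq_mem h1
    refine ⟨lt_of_lt_of_le h.2 (Nat.pow_le_pow_right (by norm_num) (by omega)),
      le_trans (Nat.pow_le_pow_right (by norm_num) (by omega)) h.1, q + k - ll l, l, hl.2,
      mul_comm _ _⟩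

lemma card_strip (q M L : ℕ) (hq : ll M ≤ q) :
    (strip q M L).card = (range L ×ˢ range M).card := by
  rw [strip_eq q M L hq, card_image_of_injOn (strip_inj q M L hq)]

lemma bav_strip (q M L : ℕ) (hq : ll M ≤ q) (m : ℤ) (x : Tor) :
    bav (strip q M L) m x = (∑ i ∈ range L ×ˢ range M, (fourier m (sq (q + i.1) i.2 • x) : ℂ)) /
      ((range L ×ˢ range M).card : ℂ) := by
  unfold bav
  rw [card_strip q M L hq, strip_eq q M L hq, sum_image (strip_inj q M L hq)]

theorem two_point (n : ℕ) : ∃ L0 : ℕ, ∀ L, L0 ≤ L → ∃ M0 : ℕ, ∀ M, M0 ≤ M → ∀ q, ll M ≤ q →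
    ∀ x y : Tor, 1 / 2 ≤ 2 ^ q * ‖x - y‖ → 2 ^ q * ‖x - y‖ ≤ 1 →
      x ∈ UU n (strip q M L) ∨ y ∈ UU n (strip q M L) := by
  by_contra hcon
  push Not at hcon
  have hsel : ∀ r : ℕ, ∃ (L M q : ℕ) (x y : Tor), r + 1 ≤ L ∧ r + 1 ≤ M ∧
      (∀ θ : ℝ, 1 / 2 ≤ |θ| → |θ| ≤ r →
        ‖∑ k ∈ range L, ∑ l ∈ range M, e (θ * (2 ^ k * uu l))‖ ≤ 3 * M) ∧ ll M ≤ q ∧
      1 / 2 ≤ 2 ^ q * ‖x - y‖ ∧ 2 ^ q * ‖x - y‖ ≤ 1 ∧
      x ∉ UU n (strip q M L) ∧ y ∉ UU n (strip q M L) := by
    intro r
    obtain ⟨L, hL, h1⟩ := hcon (r + 1)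
    obtain ⟨M0, hM0⟩ := decay L r (by omega)
    obtain ⟨M, hM, q, hq, x, y, h2, h3, h4, h5⟩ := h1 (max M0 (r + 1))
    exact ⟨L, M, q, x, y, hL, (le_max_right _ _).trans hM, hM0 M ((le_max_left _ _).trans hM), hq,
      h2, h3, h4, h5⟩
  choose L M q x y hL hM hdec hq hd1 hd2 hx hy using hsel
  obtain ⟨U, hU⟩ : ∃ U : Ultrafilter ℕ, (U : Filter ℕ) ≤ atTop :=
    ⟨hyperfilter ℕ, Nat.hyperfilter_le_atTop⟩
  have hLt : Tendsto L (U : Filter ℕ) atTop :=
    (tendsto_atTop_mono (fun r => (Nat.le_succ r).trans (hL r)) tendsto_id).mono_left hU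
  have hMt : Tendsto M (U : Filter ℕ) atTop :=
    (tendsto_atTop_mono (fun r => (Nat.le_succ r).trans (hM r)) tendsto_id).mono_left hU
  obtain ⟨J, hJp, hJc, hJ2, hJ3⟩ := strip_limit U q M L hMt hLt hq x y
  have hmd : Measurable (fun p : Tor × Tor => p.2 - p.1) := by fun_prop
  have hLr : Tendsto (fun j => ((L j : ℕ) : ℝ)) U atTop := tendsto_natCast_atTop_atTop.comp hLt
  -- the difference is uniformly distributed
  have hdiff : J.map (fun p => p.2 - p.1) = volume := by
    have hprob : IsProbabilityMeasure (J.map (fun p : Tor × Tor => p.2 - p.1)) :=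
      Measure.isProbabilityMeasure_map hmd.aemeasurable
    have hz : ∀ m : ℤ, m ≠ 0 → ∫ x, (fourier m x : ℂ) ∂(J.map (fun p => p.2 - p.1)) = 0 := by
      intro m hm
      rw [integral_map hmd.aemeasurable (fourier m).continuous.aestronglyMeasurable]
      obtain ⟨F, hF⟩ : ∃ F : C(Tor × Tor, ℂ), ∀ p, F p = fourier m (p.2 - p.1) :=
        ⟨⟨fun p => fourier m (p.2 - p.1), by fun_prop⟩, fun p => rfl⟩
      have hlim := hJc F
      have e0 : ∫ p, F p ∂J = ∫ p, (fourier m (p.2 - p.1) : ℂ) ∂J :=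
        integral_congr_ae (Eventually.of_forall hF)
      rw [e0] at hlim
      refine tendsto_nhds_unique hlim ?_
      refine squeeze_zero_norm' (a := fun j => 3 / (L j : ℝ)) ?_ (hLr.const_div_atTop 3)
      have h1 : ∀ᶠ r : ℕ in (U : Filter ℕ), m.natAbs ≤ r := hU (eventually_ge_atTop _)
      filter_upwards [h1] with r hr
      obtain ⟨z, hz, hzn⟩ := Helper58.FH.exists_rep (y r - x r)
      have hm1 : (1 : ℝ) ≤ |(m : ℝ)| := by
        have := Int.one_le_abs hm
        exact_mod_cast this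
      have hmr : |(m : ℝ)| ≤ r := by
        have h3 : ((m.natAbs : ℕ) : ℝ) = |(m : ℝ)| := by
          rw [Nat.cast_natAbs, Int.cast_abs]
        rw [← h3]
        exact_mod_cast hr
      have hnz : |z| = ‖x r - y r‖ := by
        rw [← norm_neg, neg_sub]
        exact hzn
      have h2 := hdec r (m * (2 ^ q r * z)) (by
        rw [abs_mul, abs_mul, abs_of_pos (by positivity : (0 : ℝ) < 2 ^ q r), hnz]
        have := hd1 r
        nlinarith) (by
        rw [abs_mul, abs_mul, abs_of_pos (by positivity : (0 : ℝ) < 2 ^ q r), hnz]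
        have h3 := hd2 r
        have h4 : 0 ≤ |(m : ℝ)| := abs_nonneg _
        nlinarith)
      have e1 : ∑ i ∈ range (L r) ×ˢ range (M r), F (spt (q r) (x r) (y r) i) =
          ∑ k ∈ range (L r), ∑ l ∈ range (M r), e (m * (2 ^ q r * z) * (2 ^ k * uu l)) := by
        rw [sum_product]
        refine sum_congr rfl fun k _ => sum_congr rfl fun l hl => ?_
        have hll : ll l ≤ q r + k := by
          have := ll_mono (mem_range.1 hl).le
          have := hq r
          omega
        rw [hF]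
        unfold spt
        simp only
        rw [← smul_sub, ← hz, ← AddCircle.coe_nsmul, fourier_eq_e]
        congr 1
        rw [nsmul_eq_mul, sq_eq hll, pow_add]
        ring
      rw [e1, norm_div, Complex.norm_natCast, card_product, card_range, card_range]
      have hL0 : (0 : ℝ) < L r := by
        have := hL r
        exact_mod_cast (by omega : 0 < L r)
      have hM0 : (0 : ℝ) < M r := by
        have := hM r
        exact_mod_cast (by omega : 0 < M r)
      rw [Nat.cast_mul, div_le_div_iff₀ (by positivity) hL0]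
      nlinarith [mul_le_mul_of_nonneg_right h2 hL0.le]
    have h5 := eq_smul_volume (J.map (fun p => p.2 - p.1)) hz
    rw [measure_univ, one_smul] at h5
    exact h5
  -- a `Half` marginal gives a contradiction
  have key : ∀ (π : Tor × Tor → Tor) (_ : Continuous π) (w : ℕ → Tor),
      (∀ (r : ℕ) (i : ℕ × ℕ), π (spt (q r) (x r) (y r) i) = sq (q r + i.1) i.2 • w r) →
      Half (J.map π) → (∀ r, w r ∉ UU n (strip (q r) (M r) (L r))) → False := by
    intro π hπ w hw hh hnot
    have hconv : ∀ m ∈ Finset.Icc (-(n : ℤ)) n, ∀ᶠ r in (U : Filter ℕ),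
        ‖bav (strip (q r) (M r) (L r)) m (w r) - ∫ z, (fourier m z : ℂ) ∂(J.map π)‖ <
          1 / (n + 1) := by
      intro m _
      rw [integral_map hπ.measurable.aemeasurable (fourier m).continuous.aestronglyMeasurable]
      obtain ⟨F, hF⟩ : ∃ F : C(Tor × Tor, ℂ), ∀ p, F p = fourier m (π p) :=
        ⟨⟨fun p => fourier m (π p), by fun_prop⟩, fun p => rfl⟩
      have hlim := hJc F
      have e0 : ∫ p, F p ∂J = ∫ p, (fourier m (π p) : ℂ) ∂J :=
        integral_congr_ae (Eventually.of_forall hF)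
      rw [e0] at hlim
      have h6 := (Metric.tendsto_nhds.1 hlim) (1 / ((n : ℝ) + 1)) (by positivity)
      filter_upwards [h6] with r hr
      rw [dist_eq_norm] at hr
      refine lt_of_eq_of_lt ?_ hr
      congr 2
      rw [bav_strip (q r) (M r) (L r) (hq r)]
      congr 1
      refine sum_congr rfl fun i _ => ?_
      rw [hF, hw r i]
    have hall : ∀ᶠ r in (U : Filter ℕ), ∀ m ∈ Finset.Icc (-(n : ℤ)) n,
        ‖bav (strip (q r) (M r) (L r)) m (w r) - ∫ z, (fourier m z : ℂ) ∂(J.map π)‖ <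
          1 / (n + 1) :=
      (Finset.eventually_all _).2 hconv
    obtain ⟨r, hr⟩ := hall.exists
    refine hnot r ⟨J.map π, hh, fun m hm => hr m ?_⟩
    rw [Finset.mem_Icc]
    exact abs_le.1 hm
  rcases half_or_half J hJ2 hJ3 hdiff with h | h
  · exact key Prod.fst continuous_fst x (fun r i => rfl) h hx
  · exact key Prod.snd continuous_snd y (fun r i => rfl) h hy

end Helper58.PW
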