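import Mathlib
import Pool.Agent.Helper58.PW.TwoPt

set_option autoImplicit false
open MeasureTheory Finset Filter Topology

/-! The first phase of a point of the circle. -/

namespace Helper58.PW

open Helper75.LP Helper58.DW

lemma bav_shift (q M L : ℕ) (hq : ll M ≤ q) (m : ℤ) (x : Tor) :
    bav (strip (q + 1) M L) m x = bav (strip q M L) m (2 • x) := by
  rw [bav_strip q M L hq, bav_strip (q + 1) M L (by omega)]
  congr 1
  refine sum_congr rfl fun i hi => ?_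
  rw [mem_product, mem_range, mem_range] at hi
  have h1 : ll i.2 ≤ q + i.1 := by
    have := ll_mono hi.2.le
    omega
  rw [smul_smul, mul_comm, two_mul_sq h1]
  congr 3
  ring

lemma UU_shift (n q M L : ℕ) (hq : ll M ≤ q) (j : ℕ) (x : Tor) :
    x ∈ UU n (strip (q + j) M L) ↔ 2 ^ j • x ∈ UU n (strip q M L) := by
  induction j generalizing x with
  | zero => simp
  | succ j ih =>
    have h1 : x ∈ UU n (strip (q + (j + 1)) M L) ↔ 2 • x ∈ UU n (strip (q + j) M L) := by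
      unfold UU
      simp only [Set.mem_ofPred_eq]
      rw [← add_assoc]
      simp only [bav_shift (q + j) M L (by omega)]
    rw [h1, ih, smul_smul, pow_succ]

/-- the scale of a small positive number -/
lemma exists_scale (Q : ℕ) (d : ℝ) (hd : 0 < d) (h : 2 ^ Q * d ≤ 1) :
    ∃ q, Q ≤ q ∧ 1 / 2 ≤ 2 ^ q * d ∧ 2 ^ q * d ≤ 1 := by
  have hex : ∃ k : ℕ, 1 < 2 ^ k * d := by
    obtain ⟨k, hk⟩ := pow_unbounded_of_one_lt (1 / d) (by norm_num : (1 : ℝ) < 2)
    rw [div_lt_iff₀ hd] at hk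
    exact ⟨k, hk⟩
  classical
  have hk := Nat.find_spec hex
  set k := Nat.find hex with hkdef
  have hkm : Q < k := by
    by_contra hcon
    have : (2 : ℝ) ^ k * d ≤ 2 ^ Q * d := by
      have : (2 : ℝ) ^ k ≤ 2 ^ Q := pow_le_pow_right₀ (by norm_num) (not_lt.1 hcon)
      gcongr
    linarith
  obtain ⟨j, hjk⟩ : ∃ j, k = j + 1 := ⟨k - 1, by omega⟩
  refine ⟨j, by omega, ?_, ?_⟩
  · rw [hjk, pow_succ] at hk
    linarith
  · exact not_lt.1 (Nat.find_min hex (m := j) (by omega))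

/-- two points of a long orbit are close -/
lemma exists_close (Q : ℕ) (w : ℕ → Tor) :
    ∃ i j, i < j ∧ j ≤ 2 ^ Q ∧ 2 ^ Q * ‖w i - w j‖ ≤ 1 := by
  classical
  have hQ : (0 : ℝ) < 2 ^ Q := by positivity
  choose z hz using fun y : Tor => QuotientAddGroup.mk_surjective (s := AddSubgroup.zmultiples (1 : ℝ)) y
  set f : ℕ → ℕ := fun i => ⌊(2 : ℝ) ^ Q * Int.fract (z (w i))⌋₊ with hf
  have hmaps : ∀ i ∈ range (2 ^ Q + 1), f i ∈ range (2 ^ Q) := by
    intro i _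
    rw [mem_range, hf]
    simp only
    rw [Nat.floor_lt (by have := Int.fract_nonneg (z (w i)); positivity)]
    push_cast
    have := Int.fract_lt_one (z (w i))
    nlinarith
  obtain ⟨i, hi, j, hj, hij, he⟩ := Finset.exists_ne_map_eq_of_card_lt_of_maps_to
    (s := range (2 ^ Q + 1)) (t := range (2 ^ Q)) (by simp) hmaps
  have key : ∀ i j : ℕ, f i = f j → 2 ^ Q * ‖w i - w j‖ ≤ 1 := by
    intro i j he
    have h1 : ∀ i, w i = ((Int.fract (z (w i)) : ℝ) : Tor) := by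
      intro i
      have h2 : ((z (w i) : ℝ) : Tor) = w i := hz (w i)
      have h3 : ((⌊z (w i)⌋ : ℝ) : Tor) = 0 := by
        rw [AddCircle.coe_eq_zero_iff]
        exact ⟨⌊z (w i)⌋, by simp⟩
      unfold Int.fract
      rw [AddCircle.coe_sub, h3, sub_zero, h2]
    rw [h1 i, h1 j, ← AddCircle.coe_sub]
    have h4 : ‖((Int.fract (z (w i)) - Int.fract (z (w j)) : ℝ) : Tor)‖ ≤
        |Int.fract (z (w i)) - Int.fract (z (w j))| := by
      rw [UnitAddCircle.norm_eq]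
      have := round_le (Int.fract (z (w i)) - Int.fract (z (w j))) 0
      simpa using this
    have h5 := Nat.floor_le (a := (2 : ℝ) ^ Q * Int.fract (z (w i)))
      (by have := Int.fract_nonneg (z (w i)); positivity)
    have h6 := Nat.lt_floor_add_one ((2 : ℝ) ^ Q * Int.fract (z (w i)))
    have h7 := Nat.floor_le (a := (2 : ℝ) ^ Q * Int.fract (z (w j)))
      (by have := Int.fract_nonneg (z (w j)); positivity)
    have h8 := Nat.lt_floor_add_one ((2 : ℝ) ^ Q * Int.fract (z (w j)))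
    have he' : ⌊(2 : ℝ) ^ Q * Int.fract (z (w i))⌋₊ = ⌊(2 : ℝ) ^ Q * Int.fract (z (w j))⌋₊ := he
    rw [he'] at h5 h6
    have h9 : 2 ^ Q * |Int.fract (z (w i)) - Int.fract (z (w j))| ≤ 1 := by
      have h10 : |2 ^ Q * (Int.fract (z (w i)) - Int.fract (z (w j)))| ≤ 1 := by
        rw [abs_le, mul_sub]
        constructor <;> linarith
      rwa [abs_mul, abs_of_pos hQ] at h10
    calc 2 ^ Q * ‖((Int.fract (z (w i)) - Int.fract (z (w j)) : ℝ) : Tor)‖ ≤
        2 ^ Q * |Int.fract (z (w i)) - Int.fract (z (w j))| := by gcongr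
      _ ≤ 1 := h9
  rw [mem_range] at hi hj
  rcases lt_or_gt_of_ne hij with h | h
  · exact ⟨i, j, h, by omega, key i j he⟩
  · exact ⟨j, i, h, by omega, key j i he.symm⟩

/-- **First phase.** -/
theorem first_phase (n M L Q : ℕ) (hQ : ll M ≤ Q)
    (htp : ∀ q, Q ≤ q → ∀ x y : Tor, 1 / 2 ≤ 2 ^ q * ‖x - y‖ → 2 ^ q * ‖x - y‖ ≤ 1 →
      x ∈ UU n (strip q M L) ∨ y ∈ UU n (strip q M L))
    (x : Tor) (H : ℕ)
    (hx : ((2 ^ 2 ^ Q).factorial * 2 ^ 2 ^ Q : ℝ) < 2 ^ H * ‖(2 ^ 2 ^ Q).factorial • x‖) :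
    ∃ j, j ≤ H ∧ 2 ^ j • x ∈ UU n (strip Q M L) := by
  by_contra hcon
  push Not at hcon
  set N := (2 ^ 2 ^ Q).factorial with hN
  have hN0 : 0 < N := Nat.factorial_pos _
  have hNr : (1 : ℝ) ≤ N := by exact_mod_cast hN0
  -- `H` is large
  have hH : 2 ^ Q ≤ H := by
    by_contra h
    have h1 : ‖N • x‖ ≤ 1 / 2 := AddCircle.norm_le_half_period 1 one_ne_zero |>.trans (by simp)
    have h2 : (2 : ℝ) ^ H ≤ 2 ^ 2 ^ Q := pow_le_pow_right₀ (by norm_num) (by omega)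
    have h3 : (0 : ℝ) < 2 ^ 2 ^ Q := by positivity
    have h4 : (2 : ℝ) ^ H * ‖N • x‖ ≤ 2 ^ 2 ^ Q * (1 / 2) := by gcongr
    nlinarith
  obtain ⟨i, j, hij, hj, hd⟩ := exists_close Q (fun i => 2 ^ i • x)
  set d := ‖2 ^ i • x - 2 ^ j • x‖ with hddef
  -- the difference is very small
  have hsmall : 2 ^ (H - 2 ^ Q) * d ≤ 1 := by
    rcases (norm_nonneg (2 ^ i • x - 2 ^ j • x)).eq_or_lt with h0 | h0
    · rw [hddef, ← h0, mul_zero]
      exact zero_le_one
    obtain ⟨q, hq, h1, h2⟩ := exists_scale Q d h0 hd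
    by_cases hqH : H - 2 ^ Q ≤ q
    · have : (2 : ℝ) ^ (H - 2 ^ Q) ≤ 2 ^ q := pow_le_pow_right₀ (by norm_num) hqH
      have h3 : 2 ^ (H - 2 ^ Q) * d ≤ 2 ^ q * d := by gcongr
      linarith
    · exfalso
      have h3 := htp q hq _ _ h1 h2
      have e : q = Q + (q - Q) := by omega
      rw [e, UU_shift n Q M L hQ, UU_shift n Q M L hQ, smul_smul, smul_smul, ← pow_add,
        ← pow_add] at h3
      rcases h3 with h3 | h3
      · exact hcon _ (by omega) h3
      · exact hcon _ (by omega) h3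
  -- conclusion
  have hdvd : 2 ^ j - 2 ^ i ∣ N := by
    apply Nat.dvd_factorial
    · have : 2 ^ i < 2 ^ j := Nat.pow_lt_pow_right (by norm_num) hij
      omega
    · exact (Nat.sub_le _ _).trans (Nat.pow_le_pow_right (by norm_num) hj)
  obtain ⟨c, hc⟩ := hdvd
  have hc0 : c ≤ N := by
    have h1 : 1 ≤ 2 ^ j - 2 ^ i := by
      have : 2 ^ i < 2 ^ j := Nat.pow_lt_pow_right (by norm_num) hij
      omega
    nlinarith
  have h1 : ‖N • x‖ ≤ c * d := by
    have h6 : 2 ^ i ≤ 2 ^ j := Nat.pow_le_pow_right (by norm_num) hij.le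
    have e1 : N • x = -(c • (2 ^ i • x - 2 ^ j • x)) := by
      rw [hc, mul_comm, mul_smul, sub_nsmul _ h6, ← smul_neg c (2 ^ i • x - 2 ^ j • x), neg_sub,
        sub_eq_add_neg]
    rw [e1, norm_neg]
    exact norm_nsmul_le
  have h2 : (2 : ℝ) ^ H = 2 ^ 2 ^ Q * 2 ^ (H - 2 ^ Q) := by
    rw [← pow_add]
    congr 1
    omega
  have hd0 : 0 ≤ d := norm_nonneg _
  have hstrict : (2 : ℝ) ^ H * ‖N • x‖ ≤ N * 2 ^ 2 ^ Q := by
    have h3 : (c : ℝ) ≤ N := by exact_mod_cast hc0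
    calc (2 : ℝ) ^ H * ‖N • x‖ ≤ 2 ^ H * (N * d) := by
          have : (c : ℝ) * d ≤ N * d := by gcongr
          have h4 := h1.trans this
          gcongr
      _ = N * 2 ^ 2 ^ Q * (2 ^ (H - 2 ^ Q) * d) := by rw [h2]; ring
      _ ≤ N * 2 ^ 2 ^ Q * 1 := by gcongr
      _ = N * 2 ^ 2 ^ Q := mul_one _
  exact absurd hx (not_lt.2 hstrict)

end Helper58.PW
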