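import Mathlib
import Pool.Agent.Helper58.PW.First
import Pool.Agent.Helper40.LPA.Half

set_option autoImplicit false
open MeasureTheory Finset Filter Topology

/-! Phases for measures invariant under doubling. -/

namespace Helper58.PW

open Helper75.LP Helper58.DW

lemma continuous_bav (B : Finset ℕ) (m : ℤ) : Continuous (bav B m) := by
  unfold bav
  have h : ∀ s : ℕ, Continuous fun x : Tor => (fourier m (s • x) : ℂ) := fun s =>
    (fourier m).continuous.comp (continuous_nsmul s)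
  exact (continuous_finsetSum _ fun s _ => h s).div_const _

lemma isOpen_UU (n : ℕ) (B : Finset ℕ) : IsOpen (UU n B) := by
  have e : UU n B = ⋃ ν ∈ {ν : Measure Tor | Half ν}, ⋂ m ∈ Finset.Icc (-(n : ℤ)) n,
      {x | ‖bav B m x - ∫ y, (fourier m y : ℂ) ∂ν‖ < 1 / (n + 1)} := by
    ext x
    unfold UU
    simp only [Set.mem_ofPred_eq, Set.mem_iUnion, Set.mem_iInter, exists_prop, Finset.mem_Icc,
      ← abs_le]
  rw [e]
  refine isOpen_iUnion fun ν => isOpen_iUnion fun _ => ?_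
  refine isOpen_biInter_finset fun m _ => ?_
  exact isOpen_lt ((continuous_bav B m).sub continuous_const).norm continuous_const

lemma fourier_nsmul' (m : ℤ) (s : ℕ) (x : Tor) :
    (fourier m (s • x) : ℂ) = fourier (m * s) x := by
  rw [fourier_apply, fourier_apply]
  congr 2
  rw [mul_smul, natCast_zsmul]

lemma re_fourier_two (N : ℕ) (x : Tor) :
    1 - (fourier (N : ℤ) (2 • x) : ℂ).re =
      4 * (1 - (fourier (N : ℤ) x : ℂ).re) - 2 * (1 - (fourier (N : ℤ) x : ℂ).re) ^ 2 := by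
  have h1 : (fourier (N : ℤ) (2 • x) : ℂ) = (fourier (N : ℤ) x : ℂ) * (fourier (N : ℤ) x : ℂ) := by
    rw [fourier_nsmul', ← fourier_add]
    have e : (N : ℤ) * ((2 : ℕ) : ℤ) = (N : ℤ) + N := by
      push_cast
      ring
    rw [e]
  have h2 : ‖(fourier (N : ℤ) x : ℂ)‖ = 1 := Helper58.FH.norm_fourier _ _
  have h3 : (fourier (N : ℤ) x : ℂ).re ^ 2 + (fourier (N : ℤ) x : ℂ).im ^ 2 = 1 := by
    have := Complex.sq_norm (fourier (N : ℤ) x : ℂ)
    rw [h2, Complex.normSq_apply] at this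
    nlinarith
  rw [h1, Complex.mul_re]
  nlinarith

lemma re_small (N : ℕ) (x : Tor) (h : ‖N • x‖ < 1 / 8) :
    1 - (fourier (N : ℤ) x : ℂ).re ≤ 1 / 2 := by
  have h1 := Helper58.FH.fourier_sub_one 1 (N • x)
  rw [fourier_nsmul'] at h1
  simp only [one_mul, Int.cast_one, abs_one, mul_one] at h1
  have h2 : ‖(fourier (N : ℤ) x : ℂ)‖ = 1 := Helper58.FH.norm_fourier _ _
  have h3 : (fourier (N : ℤ) x : ℂ).re ^ 2 + (fourier (N : ℤ) x : ℂ).im ^ 2 = 1 := by
    have := Complex.sq_norm (fourier (N : ℤ) x : ℂ)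
    rw [h2, Complex.normSq_apply] at this
    nlinarith
  have h4 : ‖(fourier (N : ℤ) x : ℂ) - 1‖ ^ 2 = 2 * (1 - (fourier (N : ℤ) x : ℂ).re) := by
    rw [Complex.sq_norm, Complex.normSq_apply]
    simp only [Complex.sub_re, Complex.sub_im, Complex.one_re, Complex.one_im, sub_zero]
    nlinarith
  have hpi := Real.pi_lt_d2
  have hpi0 := Real.pi_pos
  have h5 : ‖(fourier (N : ℤ) x : ℂ) - 1‖ ≤ 1 := by
    refine h1.trans ?_
    nlinarith [norm_nonneg (N • x)]
  have h6 : ‖(fourier (N : ℤ) x : ℂ) - 1‖ ^ 2 ≤ 1 := by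
    have := norm_nonneg ((fourier (N : ℤ) x : ℂ) - 1)
    nlinarith
  linarith

/-- a measure invariant under doubling which is concentrated near the `N`-torsion is carried by
it, quantitatively -/
lemma mass_away {μ : Measure Tor} [IsProbabilityMeasure μ]
    (h2 : MeasurePreserving (fun x : Tor => (2 : ℕ) • x) μ μ) (N : ℕ) :
    1 - (∫ x, (fourier (N : ℤ) x : ℂ) ∂μ).re ≤ 4 * μ.real {x | 1 / 8 ≤ ‖N • x‖} := by
  set f : Tor → ℝ := fun x => 1 - (fourier (N : ℤ) x : ℂ).re with hf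
  have hfc : Continuous f := by
    rw [hf]
    exact continuous_const.sub (Complex.continuous_re.comp (fourier (N : ℤ)).continuous)
  have hint : ∀ g : Tor → ℝ, Continuous g → Integrable g μ := fun g hg =>
    Helper17.TranslM.integrable_cont μ hg
  have hA : MeasurableSet {x : Tor | 1 / 8 ≤ ‖N • x‖} := by
    refine (isClosed_le continuous_const ?_).measurableSet
    exact (continuous_nsmul N).norm
  set A := {x : Tor | 1 / 8 ≤ ‖N • x‖} with hAdef
  have e1 : ∫ x, f x ∂μ = 1 - (∫ x, (fourier (N : ℤ) x : ℂ) ∂μ).re := by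
    show ∫ x, (1 - (fourier (N : ℤ) x : ℂ).re) ∂μ = _
    have hre : Integrable (fun x : Tor => (fourier (N : ℤ) x : ℂ).re) μ :=
      hint _ (Complex.continuous_re.comp (fourier (N : ℤ)).continuous)
    rw [integral_sub (integrable_const _) hre, integral_const]
    simp only [probReal_univ, smul_eq_mul, mul_one]
    congr 1
    have hi : Integrable (fun x : Tor => (fourier (N : ℤ) x : ℂ)) μ :=
      Helper17.TranslM.integrable_cont μ (fourier (N : ℤ)).continuous
    exact integral_re hi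
  have e2 : ∫ x, f (2 • x) ∂μ = ∫ x, f x ∂μ := by
    have h3 := integral_map (μ := μ) h2.measurable.aemeasurable (f := f)
      hfc.aestronglyMeasurable
    rw [h2.map_eq] at h3
    exact h3.symm
  have e3 : ∫ x, f (2 • x) ∂μ = ∫ x, (4 * f x - 2 * f x ^ 2) ∂μ := by
    refine integral_congr_ae (Eventually.of_forall fun x => ?_)
    simp only [hf]
    exact re_fourier_two N x
  have hf0 : ∀ x, 0 ≤ f x ∧ f x ≤ 2 := by
    intro x
    have h3 := Complex.abs_re_le_norm (fourier (N : ℤ) x : ℂ)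
    rw [Helper58.FH.norm_fourier] at h3
    rw [abs_le] at h3
    simp only [hf]
    constructor <;> linarith
  have h4 : ∫ x, (f x - A.indicator (fun _ => (4 : ℝ)) x) ∂μ ≤ ∫ x, (3 * f x - 2 * f x ^ 2) ∂μ := by
    refine integral_mono ((hint f hfc).sub ((integrable_const _).indicator hA))
      (hint _ (by fun_prop)) fun x => ?_
    simp only
    by_cases hx : x ∈ A
    · rw [Set.indicator_of_mem hx]
      have := hf0 x
      nlinarith
    · rw [Set.indicator_of_notMem hx]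
      have h5 : ‖N • x‖ < 1 / 8 := not_le.1 hx
      have h6 : f x ≤ 1 / 2 := re_small N x h5
      have := hf0 x
      nlinarith
  have h5 : ∫ x, (3 * f x - 2 * f x ^ 2) ∂μ = 0 := by
    have h6 : ∀ x, 3 * f x - 2 * f x ^ 2 = (4 * f x - 2 * f x ^ 2) - f x := fun x => by ring
    simp only [h6]
    rw [integral_sub (hint _ (by fun_prop)) (hint _ hfc), ← e3, e2, sub_self]
  rw [h5, integral_sub (hint f hfc) ((integrable_const _).indicator hA), e1,
    integral_indicator hA, integral_const] at h4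
  simp only [measureReal_restrict_apply MeasurableSet.univ, Set.univ_inter, smul_eq_mul] at h4
  linarith

/-- the mass of the phases -/
theorem phase_mass (n M L Q : ℕ) (hQ : ll M ≤ Q)
    (htp : ∀ q, Q ≤ q → ∀ x y : Tor, 1 / 2 ≤ 2 ^ q * ‖x - y‖ → 2 ^ q * ‖x - y‖ ≤ 1 →
      x ∈ UU n (strip q M L) ∨ y ∈ UU n (strip q M L)) :
    ∃ c : ℝ, 0 < c ∧ ∀ μ : Measure Tor, IsProbabilityMeasure μ →
      MeasurePreserving (fun x : Tor => (2 : ℕ) • x) μ μ →
      c * (1 - (∫ x, (fourier (((2 ^ 2 ^ Q).factorial : ℕ) : ℤ) x : ℂ) ∂μ).re) ≤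
        μ.real (UU n (strip Q M L)) := by
  set N := (2 ^ 2 ^ Q).factorial with hN
  obtain ⟨H, hH⟩ := pow_unbounded_of_one_lt (8 * ((N : ℝ) * 2 ^ 2 ^ Q)) (by norm_num : (1 : ℝ) < 2)
  refine ⟨1 / (4 * (H + 1)), by positivity, fun μ hμ h2 => ?_⟩
  have h3 := mass_away h2 N
  have h4 : μ.real {x | 1 / 8 ≤ ‖N • x‖} ≤ (H + 1) * μ.real (UU n (strip Q M L)) := by
    have h5 : {x : Tor | 1 / 8 ≤ ‖N • x‖} ⊆
        ⋃ j ∈ range (H + 1), (fun x : Tor => (2 ^ j : ℕ) • x) ⁻¹' (UU n (strip Q M L)) := by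
      intro x hx
      rw [Set.mem_ofPred_eq] at hx
      obtain ⟨j, hj, hj2⟩ := first_phase n M L Q hQ htp x H (by
        rw [← hN]
        have h6 : (0 : ℝ) < 2 ^ H := by positivity
        nlinarith)
      simp only [Set.mem_iUnion]
      exact ⟨j, mem_range.2 (by omega), hj2⟩
    refine (measureReal_mono h5 (measure_ne_top _ _)).trans ?_
    refine (measureReal_biUnion_finset_le _ _).trans (le_of_eq ?_)
    have h6 : ∀ j ∈ range (H + 1), μ.real ((fun x : Tor => (2 ^ j : ℕ) • x) ⁻¹'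
        (UU n (strip Q M L))) = μ.real (UU n (strip Q M L)) := by
      intro j _
      have h7 := (Pool.Agent.Helper40.LPA.preserving_nsmul h2 j).measure_preimage
        (isOpen_UU n (strip Q M L)).measurableSet.nullMeasurableSet
      rw [measureReal_def, h7, measureReal_def]
    rw [sum_congr rfl h6, sum_const, card_range, nsmul_eq_mul]
    push_cast
    ring
  rw [div_mul_eq_mul_div, one_mul, div_le_iff₀ (by positivity)]
  nlinarith

/-- a point without phases is torsion -/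
theorem phase_of_ne (n M L Q : ℕ) (hQ : ll M ≤ Q)
    (htp : ∀ q, Q ≤ q → ∀ x y : Tor, 1 / 2 ≤ 2 ^ q * ‖x - y‖ → 2 ^ q * ‖x - y‖ ≤ 1 →
      x ∈ UU n (strip q M L) ∨ y ∈ UU n (strip q M L))
    (x : Tor) (hx : (2 ^ 2 ^ Q).factorial • x ≠ 0) : ∃ j, 2 ^ j • x ∈ UU n (strip Q M L) := by
  have h0 : 0 < ‖(2 ^ 2 ^ Q).factorial • x‖ := norm_pos_iff.2 hx
  obtain ⟨H, hH⟩ := pow_unbounded_of_one_lt
    (((2 ^ 2 ^ Q).factorial * 2 ^ 2 ^ Q : ℝ) / ‖(2 ^ 2 ^ Q).factorial • x‖)
    (by norm_num : (1 : ℝ) < 2)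
  rw [div_lt_iff₀ h0] at hH
  obtain ⟨j, -, hj⟩ := first_phase n M L Q hQ htp x H hH
  exact ⟨j, hj⟩

end Helper58.PW
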