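import Mathlib
import Pool.Agent.Helper40.LPA.Trace
import Pool.Agent.Helper58.PW.Meas

set_option autoImplicit false
open MeasureTheory Filter Topology Finset Helper17.FU Helper17.FUGroup
open Helper91.TTT hiding Tor
open scoped ENNReal ComplexConjugate ComplexOrder InnerProductSpace

/-! Phases along fixed strips and extreme traces. -/

namespace Helper58.PW

open Helper75.LP Helper58.DW

/-- restriction of an invariant measure to a set mapped into itself -/
lemma preserving_restrict {μ : Measure Tor} [IsProbabilityMeasure μ]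
    (h : MeasurePreserving (fun x : Tor => (2 : ℕ) • x) μ μ) {A : Set Tor} (hA : MeasurableSet A)
    (hAn : ∀ x ∈ A, (2 : ℕ) • x ∈ A) :
    MeasurePreserving (fun x : Tor => (2 : ℕ) • x) (μ.restrict A) (μ.restrict A) := by
  have hsub : A ⊆ (fun x : Tor => (2 : ℕ) • x) ⁻¹' A := hAn
  have hae : (fun x : Tor => (2 : ℕ) • x) ⁻¹' A =ᵐ[μ] A := by
    refine (ae_eq_of_subset_of_measure_ge hsub ?_ hA.nullMeasurableSet
      (measure_ne_top μ _)).symm
    exact (h.measure_preimage hA.nullMeasurableSet).le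
  have h1 := h.restrict_preimage hA
  rwa [Measure.restrict_congr_set hae] at h1

/-- the mass of the phases in an invariant set -/
theorem phase_mass_set {U : Set Tor} {N : ℕ} {c : ℝ}
    (h : ∀ μ : Measure Tor, IsProbabilityMeasure μ →
      MeasurePreserving (fun x : Tor => (2 : ℕ) • x) μ μ →
      c * (1 - (∫ x, (fourier (N : ℤ) x : ℂ) ∂μ).re) ≤ μ.real U)
    {μ : Measure Tor} [IsProbabilityMeasure μ]
    (h2 : MeasurePreserving (fun x : Tor => (2 : ℕ) • x) μ μ) {A : Set Tor}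
    (hA : MeasurableSet A) (hAn : ∀ x ∈ A, (2 : ℕ) • x ∈ A) (hUm : MeasurableSet U) :
    c * ∫ x in A, (1 - (fourier (N : ℤ) x : ℂ).re) ∂μ ≤ μ.real (A ∩ U) := by
  by_cases h0 : μ A = 0
  · rw [Measure.restrict_eq_zero.2 h0, integral_zero_measure, mul_zero]
    exact measureReal_nonneg
  have hpos : 0 < μ.real A := ENNReal.toReal_pos h0 (measure_ne_top _ _)
  have hres := preserving_restrict h2 hA hAn
  set ν : Measure Tor := (μ A)⁻¹ • μ.restrict A with hν
  have hνp : IsProbabilityMeasure ν := by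
    constructor
    rw [hν, Measure.smul_apply, Measure.restrict_apply_univ, smul_eq_mul,
      ENNReal.inv_mul_cancel h0 (measure_ne_top _ _)]
  have hν2 : MeasurePreserving (fun x : Tor => (2 : ℕ) • x) ν ν := by
    refine ⟨hres.measurable, ?_⟩
    rw [hν, Measure.map_smul, hres.map_eq]
  have h3 := h ν hνp hν2
  have hi : Integrable (fun x : Tor => (fourier (N : ℤ) x : ℂ)) (μ.restrict A) :=
    Helper17.TranslM.integrable_cont _ (fourier (N : ℤ)).continuous
  have e1 : (∫ x, (fourier (N : ℤ) x : ℂ) ∂ν).re =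
      (μ.real A)⁻¹ * ∫ x in A, (fourier (N : ℤ) x : ℂ).re ∂μ := by
    rw [hν, integral_smul_measure, ENNReal.toReal_inv, Complex.real_smul, Complex.re_ofReal_mul]
    congr 1
    exact (integral_re hi).symm
  have e2 : ν.real U = (μ.real A)⁻¹ * μ.real (A ∩ U) := by
    rw [measureReal_def, hν, Measure.smul_apply, smul_eq_mul, ENNReal.toReal_mul,
      ENNReal.toReal_inv, Measure.restrict_apply hUm, Set.inter_comm]
    rfl
  have hire : Integrable (fun x : Tor => (fourier (N : ℤ) x : ℂ).re) (μ.restrict A) :=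
    Helper17.TranslM.integrable_cont _ (Complex.continuous_re.comp (fourier (N : ℤ)).continuous)
  have e3 : ∫ x in A, (1 - (fourier (N : ℤ) x : ℂ).re) ∂μ =
      μ.real A - ∫ x in A, (fourier (N : ℤ) x : ℂ).re ∂μ := by
    rw [integral_sub (integrable_const _) hire, integral_const]
    simp
  rw [e1, e2] at h3
  rw [e3]
  have h4 := mul_le_mul_of_nonneg_left h3 hpos.le
  have e4 : μ.real A * (c * (1 - (μ.real A)⁻¹ * ∫ x in A, (fourier (N : ℤ) x : ℂ).re ∂μ)) =
      c * (μ.real A - ∫ x in A, (fourier (N : ℤ) x : ℂ).re ∂μ) := by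
    field_simp
  have e5 : μ.real A * ((μ.real A)⁻¹ * μ.real (A ∩ U)) = μ.real (A ∩ U) := by
    field_simp
  rw [e4, e5] at h4
  exact h4

lemma ll_le_of_pow {M Q : ℕ} (h : 3 ^ M ≤ 2 ^ Q) : ll M ≤ Q := by
  have h1 := (ll_le M).trans h
  rwa [Nat.pow_le_pow_iff_right (by norm_num)] at h1

/-- **Universal theorem on first phases.** -/
theorem universal (n : ℕ) : ∃ L0 : ℕ, ∀ L, L0 ≤ L → ∃ M0 : ℕ, ∀ M, M0 ≤ M → ∀ Q, 3 ^ M ≤ 2 ^ Q →
    (∀ (x : Tor) (H : ℕ),
      ((2 ^ 2 ^ Q).factorial * 2 ^ 2 ^ Q : ℝ) < 2 ^ H * ‖(2 ^ 2 ^ Q).factorial • x‖ →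
        ∃ j, j ≤ H ∧ 2 ^ j • x ∈ UU n (strip Q M L)) ∧
    ∃ c : ℝ, 0 < c ∧ ∀ μ : Measure Tor, IsProbabilityMeasure μ →
      MeasurePreserving (fun x : Tor => (2 : ℕ) • x) μ μ →
      c * (1 - (∫ x, (fourier (((2 ^ 2 ^ Q).factorial : ℕ) : ℤ) x : ℂ) ∂μ).re) ≤
        μ.real (UU n (strip Q M L)) := by
  obtain ⟨L0, hL0⟩ := two_point n
  refine ⟨L0, fun L hL => ?_⟩
  obtain ⟨M0, hM0⟩ := hL0 L hL
  refine ⟨M0, fun M hM Q hQ => ?_⟩
  have hll := ll_le_of_pow hQ
  exact ⟨first_phase n M L Q hll fun q hq => hM0 M hM q (hll.trans hq),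
    phase_mass n M L Q hll fun q hq => hM0 M hM q (hll.trans hq)⟩

/-- irrational points -/
theorem frequently_of_irrational {U : Set Tor} {N : ℕ} (hN : 0 < N) {C : ℝ}
    (h : ∀ (x : Tor) (H : ℕ), C < 2 ^ H * ‖N • x‖ → ∃ j, j ≤ H ∧ 2 ^ j • x ∈ U)
    (x : ℝ) (hx : Irrational x) : ∃ᶠ j : ℕ in atTop, 2 ^ j • (x : Tor) ∈ U := by
  rw [frequently_atTop]
  intro a
  have h0 : N • (2 ^ a • (x : Tor)) ≠ 0 := by
    intro h1
    rw [smul_smul, ← AddCircle.coe_nsmul, AddCircle.coe_eq_zero_iff] at h1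
    obtain ⟨z, hz⟩ := h1
    rw [zsmul_eq_mul, mul_one, nsmul_eq_mul] at hz
    have h2 : x = (z : ℝ) / ((N * 2 ^ a : ℕ) : ℝ) := by
      rw [hz]
      have : ((N * 2 ^ a : ℕ) : ℝ) ≠ 0 := by positivity
      field_simp
    apply hx
    refine ⟨(z : ℚ) / ((N * 2 ^ a : ℕ) : ℚ), ?_⟩
    rw [h2]
    push_cast
    rfl
  have h1 : 0 < ‖N • (2 ^ a • (x : Tor))‖ := norm_pos_iff.2 h0
  obtain ⟨H, hH⟩ := pow_unbounded_of_one_lt (C / ‖N • (2 ^ a • (x : Tor))‖)
    (by norm_num : (1 : ℝ) < 2)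
  rw [div_lt_iff₀ h1] at hH
  obtain ⟨j, -, hj⟩ := h _ H hH
  refine ⟨a + j, by omega, ?_⟩
  rw [smul_smul, ← pow_add, add_comm j a] at hj
  exact hj

lemma null_of_countable' {ν : Measure Tor} (hna : ∀ x : Tor, ν {x} = 0) {S : Set Tor}
    (hS : S.Countable) : ν S = 0 := by
  rw [← Set.biUnion_of_singleton S]
  exact (measure_biUnion_null_iff hS).2 fun x _ => hna x

/-- torsion points form a finite set -/
lemma torsion_finite (N : ℕ) (hN : 0 < N) : {x : Tor | N • x = 0}.Finite := by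
  have h := AddCircle.finite_torsion (p := (1 : ℝ)) hN
  refine h.subset fun x hx => ?_
  exact hx

variable {s2 s3 t : Equiv.Perm ℚ}

/-- **Infinite conditional dimension and phases along fixed strips.** -/
theorem dim_tfae (h2 : ∀ x : ℚ, s2 x = 2 * x) (h3 : ∀ x : ℚ, s3 x = 3 * x)
    (ht : ∀ x : ℚ, t x = x + 1) {τ : GG s2 s3 t} (hτ : (τ : Equiv.Perm ℚ) = t)
    {φ : GG s2 s3 t → ℂ} (hφ : φ ∈ Set.extremePoints ℝ (TR (GG s2 s3 t)))
    {μ : Measure Tor} [IsProbabilityMeasure μ]
    (hμ : ∀ n : ℤ, ∫ x, (fourier n x : ℂ) ∂μ = φ (τ ^ n))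
    (hP : MeasurePreserving (fun x : Tor => (2 : ℕ) • x) μ μ) :
    [¬ FiniteDimensional ℂ (Submodule.span ℂ {F : GG s2 s3 t → ℂ | ∃ n : GG s2 s3 t,
        IsTr n ∧ F = fun x => φ (n * x)}),
      ∀ n : ℕ, ∃ L0 : ℕ, ∀ L, L0 ≤ L → ∃ M0 : ℕ, ∀ M, M0 ≤ M → ∀ Q, 3 ^ M ≤ 2 ^ Q →
        ∀ A : Set Tor, MeasurableSet A → (∀ x ∈ A, (2 : ℕ) • x ∈ A) → 0 < μ A →
          0 < μ (A ∩ UU n (strip Q M L)),
      ∀ n : ℕ, ∃ B : Finset ℕ, 0 < μ (UU n B)].TFAE := by
  tfae_have 1 → 2 := by
    intro hfd n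
    have hna := Pool.Agent.Helper40.LPA.no_atoms_of_infinite h2 h3 ht hτ hφ hμ hfd
    obtain ⟨L0, hL0⟩ := universal n
    refine ⟨L0, fun L hL => ?_⟩
    obtain ⟨M0, hM0⟩ := hL0 L hL
    refine ⟨M0, fun M hM Q hQ A hA hAn hApos => ?_⟩
    obtain ⟨-, c, hc, hmass⟩ := hM0 M hM Q hQ
    have hU := (isOpen_UU n (strip Q M L)).measurableSet
    have h4 := phase_mass_set hmass hP hA hAn hU
    by_contra hcon
    have h5 : μ (A ∩ UU n (strip Q M L)) = 0 := by simpa using hcon
    rw [measureReal_def, h5, ENNReal.toReal_zero] at h4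
    set N := (2 ^ 2 ^ Q).factorial with hN
    have hN0 : 0 < N := Nat.factorial_pos _
    have hf0 : ∀ x : Tor, 0 ≤ 1 - (fourier (N : ℤ) x : ℂ).re := by
      intro x
      have h6 := Complex.abs_re_le_norm (fourier (N : ℤ) x : ℂ)
      rw [Helper58.FH.norm_fourier] at h6
      have := (abs_le.1 h6).2
      linarith
    have hint : Integrable (fun x : Tor => 1 - (fourier (N : ℤ) x : ℂ).re) (μ.restrict A) :=
      Helper17.TranslM.integrable_cont _ (continuous_const.sub
        (Complex.continuous_re.comp (fourier (N : ℤ)).continuous))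
    have h6 : ∫ x in A, (1 - (fourier (N : ℤ) x : ℂ).re) ∂μ = 0 := by
      refine le_antisymm ?_ (integral_nonneg fun x => hf0 x)
      by_contra h7
      push Not at h7
      have := mul_pos hc h7
      linarith
    have h7 := (integral_eq_zero_iff_of_nonneg (fun x => hf0 x) hint).1 h6
    have h8 : ∀ᵐ x ∂(μ.restrict A), N • x = 0 := by
      filter_upwards [h7] with x hx
      have h9 : (fourier (N : ℤ) x : ℂ).re = 1 := by
        have : 1 - (fourier (N : ℤ) x : ℂ).re = 0 := hx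
        linarith
      have h10 : ‖(fourier (N : ℤ) x : ℂ)‖ = 1 := Helper58.FH.norm_fourier _ _
      have h11 : (fourier (N : ℤ) x : ℂ) = 1 := by
        have h12 := Complex.sq_norm (fourier (N : ℤ) x : ℂ)
        rw [h10, Complex.normSq_apply, h9] at h12
        apply Complex.ext
        · exact h9
        · simp only [Complex.one_im]
          nlinarith
      rw [fourier_apply] at h11
      have h12 : AddCircle.toCircle ((N : ℤ) • x) = AddCircle.toCircle (0 : Tor) := by
        apply Subtype.ext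
        rw [h11]
        simp
      have h13 := AddCircle.injective_toCircle one_ne_zero h12
      rwa [natCast_zsmul] at h13
    have h9 : μ (A ∩ {x : Tor | N • x = 0}ᶜ) = 0 := by
      rw [ae_iff] at h8
      rw [Set.inter_comm]
      have hm : MeasurableSet {x : Tor | N • x = 0}ᶜ :=
        (torsion_finite N hN0).measurableSet.compl
      rw [← Measure.restrict_apply hm]
      exact h8
    have h10 : μ {x : Tor | N • x = 0} = 0 :=
      null_of_countable' hna (torsion_finite N hN0).countable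
    have h11 : μ A = 0 := by
      refine measure_mono_null (fun x hx => ?_) (measure_union_null h9 h10)
      by_cases hxN : N • x = 0
      · exact Or.inr hxN
      · exact Or.inl ⟨hx, hxN⟩
    exact hApos.ne' h11
  tfae_have 2 → 3 := by
    intro h n
    obtain ⟨L0, hL0⟩ := h n
    obtain ⟨M0, hM0⟩ := hL0 L0 le_rfl
    have h4 := hM0 M0 le_rfl (2 * M0) (by
      rw [pow_mul]
      exact Nat.pow_le_pow_left (by norm_num) _) Set.univ MeasurableSet.univ
      (fun x _ => Set.mem_univ _) (by rw [measure_univ]; exact one_pos)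
    rw [Set.univ_inter] at h4
    exact ⟨_, h4⟩
  tfae_have 3 → 1 := by
    intro h hfd
    obtain ⟨Z, hZ, hZ0⟩ := Pool.Agent.Helper40.LPA.finite_of_fd ht hτ hμ hfd
    obtain ⟨m, hm, hae⟩ := Pool.Agent.Helper40.LPA.exists_trivial_char hP Z hZ hZ0
    obtain ⟨B, hB⟩ := h (m + 2)
    have h4 : ∀ᵐ x ∂μ, x ∉ UU (m + 2) B := by
      filter_upwards [hae] with x hx hxU
      obtain ⟨ν, hν, hν2⟩ := hxU
      have hνp := hν.1
      rcases B.eq_empty_or_nonempty with hB0 | hB0
      · have h5 := hν2 0 (by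
          rw [abs_zero]
          exact Int.natCast_nonneg _)
        rw [hB0] at h5
        have h6 : ∫ y, (fourier 0 y : ℂ) ∂ν = 1 := by simp
        rw [h6] at h5
        unfold bav at h5
        simp only [sum_empty, card_empty, Nat.cast_zero, div_zero, zero_sub, norm_neg,
          norm_one] at h5
        have h7 : (1 : ℝ) / (((m + 2 : ℕ) : ℝ) + 1) ≤ 1 := by
          rw [div_le_one (by positivity)]
          have : (0 : ℝ) ≤ ((m + 2 : ℕ) : ℝ) := Nat.cast_nonneg _
          linarith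
        linarith
      · have h5 := hν2 (m : ℤ) (by
          rw [Nat.abs_cast]
          push_cast
          omega)
        have h6 : bav B (m : ℤ) x = 1 := by
          unfold bav
          have h7 : ∀ s ∈ B, (fourier (m : ℤ) (s • x) : ℂ) = 1 := by
            intro s _
            rw [fourier_apply, natCast_zsmul, smul_smul, mul_comm, ← smul_smul, hx, smul_zero]
            simp
          rw [sum_congr rfl h7, sum_const, nsmul_eq_mul, mul_one, div_self]
          exact_mod_cast hB0.card_pos.ne'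
        have h7 := Pool.Agent.Helper40.LPA.norm_half_le hν (m : ℤ) (by exact_mod_cast (by omega))
        rw [h6] at h5
        have h8 : (1 : ℝ) ≤ ‖(1 : ℂ) - ∫ y, (fourier (m : ℤ) y : ℂ) ∂ν‖ +
            ‖∫ y, (fourier (m : ℤ) y : ℂ) ∂ν‖ := by
          have := norm_add_le ((1 : ℂ) - ∫ y, (fourier (m : ℤ) y : ℂ) ∂ν)
            (∫ y, (fourier (m : ℤ) y : ℂ) ∂ν)
          rw [sub_add_cancel, norm_one] at this
          exact this
        have h9 : (1 : ℝ) / (((m + 2 : ℕ) : ℝ) + 1) < 1 / 2 := by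
          apply one_div_lt_one_div_of_lt (by norm_num)
          push_cast
          have : (1 : ℝ) ≤ m := by exact_mod_cast hm
          linarith
        linarith
    rw [ae_iff] at h4
    simp only [not_not] at h4
    exact hB.ne' h4
  tfae_finish

end Helper58.PW
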