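import Mathlib
import Pool.Agent.Helper58.PW.Trace

set_option autoImplicit false
open MeasureTheory Finset Filter Topology

/-! The universal theorem with an explicit constant. -/

namespace Helper58.PW

open Helper75.LP Helper58.DW

lemma const_le (Q : ℕ) :
    4 * ((2 ^ Q * 2 ^ 2 ^ Q + 2 ^ Q + 4 : ℕ) + 1) ≤ 2 ^ 2 ^ (Q + 3) := by
  have ha : 1 ≤ 2 ^ Q := Nat.one_le_two_pow
  set a := 2 ^ Q with hadef
  have hab : a ≤ 2 ^ a := (Nat.lt_two_pow_self).le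
  have hb : 2 ≤ 2 ^ a := by
    calc 2 = 2 ^ 1 := (pow_one 2).symm
      _ ≤ 2 ^ a := Nat.pow_le_pow_right (by norm_num) ha
  have e : 2 ^ 2 ^ (Q + 3) = (2 ^ a) ^ 8 := by
    rw [← pow_mul, pow_add, ← hadef]
    norm_num
  rw [e]
  set b := 2 ^ a with hbdef
  have h1 : 4 * (a * b + a + 4 + 1) ≤ 16 * b ^ 2 := by nlinarith
  have h2 : 16 * b ^ 2 ≤ b ^ 4 * b ^ 2 := by
    have : 2 ^ 4 ≤ b ^ 4 := Nat.pow_le_pow_left hb 4
    nlinarith [Nat.zero_le (b ^ 2)]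
  have h3 : b ^ 4 * b ^ 2 ≤ b ^ 8 := by
    rw [← pow_add]
    exact Nat.pow_le_pow_right (by omega) (by norm_num)
  omega

lemma fact_lt (Q : ℕ) : (8 * (((2 ^ 2 ^ Q).factorial : ℝ) * 2 ^ 2 ^ Q) : ℝ) <
    2 ^ (2 ^ Q * 2 ^ 2 ^ Q + 2 ^ Q + 4) := by
  have h1 : (2 ^ 2 ^ Q).factorial ≤ 2 ^ (2 ^ Q * 2 ^ 2 ^ Q) := by
    rw [pow_mul]
    exact Nat.factorial_le_pow _
  have h2 : ((2 ^ 2 ^ Q).factorial : ℝ) ≤ 2 ^ (2 ^ Q * 2 ^ 2 ^ Q) := by exact_mod_cast h1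
  calc (8 * (((2 ^ 2 ^ Q).factorial : ℝ) * 2 ^ 2 ^ Q) : ℝ) ≤
      8 * (2 ^ (2 ^ Q * 2 ^ 2 ^ Q) * 2 ^ 2 ^ Q) := by gcongr
    _ < 16 * (2 ^ (2 ^ Q * 2 ^ 2 ^ Q) * 2 ^ 2 ^ Q) := by
      have : (0 : ℝ) < 2 ^ (2 ^ Q * 2 ^ 2 ^ Q) * 2 ^ 2 ^ Q := by positivity
      linarith
    _ = 2 ^ (2 ^ Q * 2 ^ 2 ^ Q + 2 ^ Q + 4) := by
      rw [pow_add, pow_add]
      norm_num
      ring

theorem phase_mass_explicit (n M L Q : ℕ) (hQ : ll M ≤ Q)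
    (htp : ∀ q, Q ≤ q → ∀ x y : Tor, 1 / 2 ≤ 2 ^ q * ‖x - y‖ → 2 ^ q * ‖x - y‖ ≤ 1 →
      x ∈ UU n (strip q M L) ∨ y ∈ UU n (strip q M L))
    (μ : Measure Tor) [IsProbabilityMeasure μ]
    (h2 : MeasurePreserving (fun x : Tor => (2 : ℕ) • x) μ μ) :
    1 / 2 ^ 2 ^ (Q + 3) *
        (1 - (∫ x, (fourier (((2 ^ 2 ^ Q).factorial : ℕ) : ℤ) x : ℂ) ∂μ).re) ≤
      μ.real (UU n (strip Q M L)) := by
  set N := (2 ^ 2 ^ Q).factorial with hN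
  set H := 2 ^ Q * 2 ^ 2 ^ Q + 2 ^ Q + 4 with hHdef
  have hH : 8 * ((N : ℝ) * 2 ^ 2 ^ Q) < 2 ^ H := fact_lt Q
  have h3 := mass_away h2 N
  have h4 : μ.real {x | 1 / 8 ≤ ‖N • x‖} ≤ (H + 1) * μ.real (UU n (strip Q M L)) := by
    have h5 : {x : Tor | 1 / 8 ≤ ‖N • x‖} ⊆
        ⋃ j ∈ range (H + 1), (fun x : Tor => (2 ^ j : ℕ) • x) ⁻¹' (UU n (strip Q M L)) := by
      intro x hx
      rw [Set.mem_ofPred_eq] at hx
      obtain ⟨j, hj, hj2⟩ := first_phase n M L Q hQ htp x H (by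
        rw [← hN]
        have h6 : (0 : ℝ) < 2 ^ H := by positivity
        nlinarith)
      simp only [Set.mem_iUnion]
      exact ⟨j, mem_range.2 (by omega), hj2⟩
    refine (measureReal_mono h5 (measure_ne_top _ _)).trans ?_
    refine (measureReal_biUnion_finset_le _ _).trans (le_of_eq ?_)
    have h6 : ∀ j ∈ range (H + 1), μ.real ((fun x : Tor => (2 ^ j : ℕ) • x) ⁻¹'
        (UU n (strip Q M L))) = μ.real (UU n (strip Q M L)) := by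
      intro j _
      have h7 := (Pool.Agent.Helper40.LPA.preserving_nsmul h2 j).measure_preimage
        (isOpen_UU n (strip Q M L)).measurableSet.nullMeasurableSet
      rw [measureReal_def, h7, measureReal_def]
    rw [sum_congr rfl h6, sum_const, card_range, nsmul_eq_mul]
    push_cast
    ring
  have h5 : (4 * ((H : ℝ) + 1)) ≤ 2 ^ 2 ^ (Q + 3) := by
    have := const_le Q
    rw [← hHdef] at this
    exact_mod_cast this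
  have h6 : 0 ≤ μ.real (UU n (strip Q M L)) := measureReal_nonneg
  rw [div_mul_eq_mul_div, one_mul, div_le_iff₀ (by positivity)]
  calc 1 - (∫ x, (fourier (N : ℤ) x : ℂ) ∂μ).re ≤ 4 * μ.real {x | 1 / 8 ≤ ‖N • x‖} := h3
    _ ≤ 4 * ((H + 1) * μ.real (UU n (strip Q M L))) := by gcongr
    _ = μ.real (UU n (strip Q M L)) * (4 * ((H : ℝ) + 1)) := by ring
    _ ≤ μ.real (UU n (strip Q M L)) * 2 ^ 2 ^ (Q + 3) := by gcongr

/-- **Universal theorem on first phases, explicit form.** -/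
theorem universal_explicit (n : ℕ) : ∃ L0 : ℕ, ∀ L, L0 ≤ L → ∃ M0 : ℕ, ∀ M, M0 ≤ M →
    ∀ Q, 3 ^ M ≤ 2 ^ Q →
    (∀ (x : Tor) (H : ℕ),
      ((2 ^ 2 ^ Q).factorial * 2 ^ 2 ^ Q : ℝ) < 2 ^ H * ‖(2 ^ 2 ^ Q).factorial • x‖ →
        ∃ j, j ≤ H ∧ 2 ^ j • x ∈ UU n (strip Q M L)) ∧
    (∀ x : ℝ, Irrational x → ∃ᶠ j : ℕ in atTop, 2 ^ j • (x : Tor) ∈ UU n (strip Q M L)) ∧
    ∀ μ : Measure Tor, IsProbabilityMeasure μ →
      MeasurePreserving (fun x : Tor => (2 : ℕ) • x) μ μ →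
      1 / 2 ^ 2 ^ (Q + 3) *
          (1 - (∫ x, (fourier (((2 ^ 2 ^ Q).factorial : ℕ) : ℤ) x : ℂ) ∂μ).re) ≤
        μ.real (UU n (strip Q M L)) := by
  obtain ⟨L0, hL0⟩ := two_point n
  refine ⟨L0, fun L hL => ?_⟩
  obtain ⟨M0, hM0⟩ := hL0 L hL
  refine ⟨M0, fun M hM Q hQ => ?_⟩
  have hll := ll_le_of_pow hQ
  have h1 := first_phase n M L Q hll fun q hq => hM0 M hM q (hll.trans hq)
  refine ⟨h1, fun x hx => frequently_of_irrational (Nat.factorial_pos _) h1 x hx,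
    fun μ hμ h2 => phase_mass_explicit n M L Q hll (fun q hq => hM0 M hM q (hll.trans hq)) μ h2⟩

end Helper58.PW
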