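import Mathlib
import Pool.Agent.Helper58.PW.First

set_option autoImplicit false
open MeasureTheory Finset Filter Topology

/-! Phases along wide windows: all but countably many points. -/

namespace Helper58.PW

open Helper75.LP Helper58.DW

lemma ll_add_ge (l j : ℕ) : ll l + j ≤ ll (l + j) := by
  induction j with
  | zero => simp
  | succ j ih =>
    have h1 : ll (l + j) + 1 ≤ ll (l + (j + 1)) := by
      have h2 := ll_le (l + j)
      have h3 : 2 ^ (ll (l + j) + 1) ≤ 3 ^ (l + (j + 1)) := by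
        rw [← add_assoc, pow_succ, pow_succ 3]
        exact Nat.mul_le_mul h2 (by norm_num)
      unfold ll at h3 ⊢
      exact Nat.le_log_of_pow_le (by norm_num) h3
    omega

lemma strip_mono (q L : ℕ) {M M' : ℕ} (h : M' ≤ M) : strip q M' L ⊆ strip q M L := by
  classical
  intro s hs
  unfold strip at hs ⊢
  rw [mem_filter] at hs ⊢
  obtain ⟨h1, h2, i, l, hl, h3⟩ := hs
  exact ⟨h1, h2, i, l, hl.trans_le h, h3⟩

lemma card_extra (q M L : ℕ) (hK : 1 ≤ Kn q M) :
    (strip q M L \ strip q (Kn q M - 1) L).card ≤ L * L := by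
  classical
  have hsub : strip q M L \ strip q (Kn q M - 1) L ⊆
      (range L ×ˢ range L).image (fun i => sq (q + i.1) (Kn q M - 1 + i.2)) := by
    intro s hs
    rw [Finset.mem_sdiff] at hs
    obtain ⟨h1, h2⟩ := hs
    have h1' := h1
    unfold strip at h1' h2
    rw [mem_filter, mem_range] at h1'
    obtain ⟨h3, h4, i, l, hl, rfl⟩ := h1'
    have hl2 : Kn q M - 1 ≤ l := by
      by_contra hcon
      exact h2 (mem_filter.2 ⟨mem_range.2 h3, h4, i, l, not_le.1 hcon, rfl⟩)
    have h5 : 2 ^ (i + ll l) < 2 ^ (q + L) := by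
      refine lt_of_le_of_lt ?_ h3
      rw [pow_add]
      exact Nat.mul_le_mul_left _ (ll_le l)
    have h6 : 2 ^ q < 2 ^ (i + ll l + 1) := by
      refine lt_of_le_of_lt h4 ?_
      rw [add_assoc, pow_add]
      exact Nat.mul_lt_mul_of_pos_left (lt_ll l) (by positivity)
    rw [Nat.pow_lt_pow_iff_right (by norm_num)] at h5 h6
    rw [mem_image]
    refine ⟨(i + ll l - q, l - (Kn q M - 1)), ?_, ?_⟩
    · rw [mem_product, mem_range, mem_range]
      simp only
      refine ⟨by omega, ?_⟩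
      -- `l` is not large
      by_contra hcon
      push Not at hcon
      have h7 : Kn q M ≤ l := by omega
      have h8 : q < ll (Kn q M) := by
        by_contra h
        exact lt_irrefl (Kn q M) ((lt_Kn_iff q M (Kn q M)).2 ⟨by omega, by omega⟩)
      have h9 := ll_add_ge (Kn q M) (l - Kn q M)
      rw [show Kn q M + (l - Kn q M) = l by omega] at h9
      omega
    · simp only
      rw [show Kn q M - 1 + (l - (Kn q M - 1)) = l by omega]
      unfold Helper58.DW.sq
      rw [mul_comm]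
      congr 2
      omega
  refine (card_le_card hsub).trans (card_image_le.trans ?_)
  rw [card_product, card_range]

lemma avg_sub_le (A B : Finset ℕ) (hAB : A ⊆ B) (hA : A.Nonempty) (m : ℤ) (x : Tor) :
    ‖bav B m x - bav A m x‖ ≤ 2 * ((B \ A).card : ℝ) / B.card := by
  classical
  have hAc : (0 : ℝ) < A.card := by exact_mod_cast hA.card_pos
  have hBc : (0 : ℝ) < B.card := by exact_mod_cast (hA.mono hAB).card_pos
  have hcard : ((B \ A).card : ℝ) = B.card - A.card := by
    rw [card_sdiff_of_subset hAB, Nat.cast_sub (card_le_card hAB)]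
  have hn : ∀ s : ℕ, ‖(fourier m (s • x) : ℂ)‖ = 1 := fun s => Helper58.FH.norm_fourier _ _
  have hs : ∀ C : Finset ℕ, ‖∑ s ∈ C, (fourier m (s • x) : ℂ)‖ ≤ C.card := by
    intro C
    refine (norm_sum_le_of_le _ fun s _ => (hn s).le).trans ?_
    rw [sum_const, nsmul_eq_mul, mul_one]
  unfold bav
  rw [← sum_sdiff hAB]
  have hAc' : (A.card : ℂ) ≠ 0 := by exact_mod_cast hAc.ne'
  have hBc' : (B.card : ℂ) ≠ 0 := by exact_mod_cast hBc.ne'
  have e1 : (∑ s ∈ B \ A, (fourier m (s • x) : ℂ) + ∑ s ∈ A, (fourier m (s • x) : ℂ)) / B.card -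
      (∑ s ∈ A, (fourier m (s • x) : ℂ)) / A.card =
      (∑ s ∈ B \ A, (fourier m (s • x) : ℂ)) / B.card -
      (∑ s ∈ A, (fourier m (s • x) : ℂ)) / A.card * ((((B \ A).card : ℝ) : ℂ) / B.card) := by
    rw [hcard]
    push_cast
    field_simp
    ring
  rw [e1]
  refine (norm_sub_le _ _).trans ?_
  rw [norm_div, norm_mul, norm_div, norm_div, Complex.norm_natCast, Complex.norm_natCast,
    Complex.norm_real, Real.norm_eq_abs, abs_of_nonneg (Nat.cast_nonneg _)]
  have h1 := hs (B \ A)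
  have h2 := hs A
  have h3 : ‖∑ s ∈ A, (fourier m (s • x) : ℂ)‖ / A.card ≤ 1 := by
    rw [div_le_one hAc]
    exact h2
  have h4 : (0 : ℝ) ≤ ((B \ A).card : ℝ) / B.card := by positivity
  calc ‖∑ s ∈ B \ A, (fourier m (s • x) : ℂ)‖ / B.card +
      ‖∑ s ∈ A, (fourier m (s • x) : ℂ)‖ / A.card * (((B \ A).card : ℝ) / B.card) ≤
      ((B \ A).card : ℝ) / B.card + 1 * (((B \ A).card : ℝ) / B.card) := by gcongr
    _ = 2 * ((B \ A).card : ℝ) / B.card := by ring

theorem two_point_wide (n : ℕ) : ∃ L0 : ℕ, ∀ L, L0 ≤ L → ∃ K0 : ℕ, ∀ M q, K0 ≤ Kn q M →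
    ∀ x y : Tor, 1 / 2 ≤ 2 ^ q * ‖x - y‖ → 2 ^ q * ‖x - y‖ ≤ 1 →
      x ∈ UU n (strip q M L) ∨ y ∈ UU n (strip q M L) := by
  classical
  obtain ⟨L0, hL0⟩ := two_point (2 * n + 1)
  refine ⟨max L0 1, fun L hL => ?_⟩
  obtain ⟨M0, hM0⟩ := hL0 L ((le_max_left _ _).trans hL)
  have hL1 : 1 ≤ L := (le_max_right _ _).trans hL
  refine ⟨max (M0 + 1) (4 * L * (n + 1) + 2), fun M q hK x y h1 h2 => ?_⟩
  have hK1 : M0 + 1 ≤ Kn q M := (le_max_left _ _).trans hK
  have hK2 : 4 * L * (n + 1) + 2 ≤ Kn q M := (le_max_right _ _).trans hK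
  set M' := Kn q M - 1 with hM'
  have hMM : M' ≤ M := by
    have : Kn q M ≤ M := min_le_left _ _
    omega
  have hll : ll M' ≤ q := ll_le_of_lt (M := M) (by omega)
  have hinc : UU (2 * n + 1) (strip q M' L) ⊆ UU n (strip q M L) := by
    rintro z ⟨ν, hν, h⟩
    refine ⟨ν, hν, fun m hm => ?_⟩
    have hm' : |m| ≤ ((2 * n + 1 : ℕ) : ℤ) := by
      push_cast
      linarith [Int.natCast_nonneg n]
    have h3 := h m hm'
    have hne : (strip q M' L).Nonempty := by
      rw [← Finset.card_pos, card_strip q M' L hll, card_product, card_range, card_range]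
      exact Nat.mul_pos hL1 (by omega)
    have h4 := avg_sub_le (strip q M' L) (strip q M L) (strip_mono q L hMM) hne m z
    have h5 := card_extra q M L (by omega)
    rw [← hM'] at h5
    have h6 : (L * M' : ℝ) ≤ (strip q M L).card := by
      have h7 := card_le_card (strip_mono q L hMM)
      rw [card_strip q M' L hll, card_product, card_range, card_range] at h7
      exact_mod_cast h7
    have hLr : (0 : ℝ) < L := by exact_mod_cast hL1
    have hM'r : (4 * L * (n + 1) : ℝ) ≤ M' := by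
      have : 4 * L * (n + 1) ≤ M' := by omega
      exact_mod_cast this
    have h8 : 2 * ((strip q M L \ strip q M' L).card : ℝ) / (strip q M L).card ≤
        1 / (2 * n + 2) := by
      have h9 : ((strip q M L \ strip q M' L).card : ℝ) ≤ L * L := by exact_mod_cast h5
      have hn0 : (0 : ℝ) ≤ n := Nat.cast_nonneg n
      have hpos : (0 : ℝ) < (strip q M L).card := by
        have : (0 : ℝ) < L * M' := by
          apply mul_pos hLr
          nlinarith
        linarith
      rw [div_le_div_iff₀ hpos (by positivity)]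
      nlinarith
    have e1 : bav (strip q M L) m z - ∫ y, (fourier m y : ℂ) ∂ν =
        (bav (strip q M L) m z - bav (strip q M' L) m z) +
        (bav (strip q M' L) m z - ∫ y, (fourier m y : ℂ) ∂ν) := by ring
    rw [e1]
    refine lt_of_le_of_lt (norm_add_le _ _) ?_
    have e2 : (1 : ℝ) / (n + 1) = 1 / (2 * n + 2) + 1 / (2 * n + 2) := by
      field_simp
      norm_num
    rw [e2]
    have e3 : (1 : ℝ) / (((2 * n + 1 : ℕ) : ℝ) + 1) = 1 / (2 * n + 2) := by
      congr 1
      push_cast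
      ring
    rw [e3] at h3
    linarith
  rcases hM0 M' (by omega) q hll x y h1 h2 with h | h
  · exact Or.inl (hinc h)
  · exact Or.inr (hinc h)

/-- separation gives finiteness -/
lemma finite_of_tp (E : ℕ → Set Tor) (Q : ℕ)
    (h : ∀ q, Q ≤ q → ∀ x y : Tor, 1 / 2 ≤ 2 ^ q * ‖x - y‖ → 2 ^ q * ‖x - y‖ ≤ 1 →
      x ∈ E q ∨ y ∈ E q) : {x : Tor | ∀ q, Q ≤ q → x ∉ E q}.Finite := by
  by_contra hinf
  have hinf' : {x : Tor | ∀ q, Q ≤ q → x ∉ E q}.Infinite := hinf
  set w := hinf'.natEmbedding with hw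
  obtain ⟨i, j, hij, -, hd⟩ := exists_close Q (fun i => (w i : Tor))
  have hne : (w i : Tor) - (w j : Tor) ≠ 0 := by
    intro h0
    have h1 : (w i : Tor) = (w j : Tor) := sub_eq_zero.1 h0
    have h2 := w.injective (Subtype.ext h1)
    omega
  obtain ⟨q, hq, h1, h2⟩ := exists_scale Q _ (norm_pos_iff.2 hne) hd
  rcases h q hq _ _ h1 h2 with h3 | h3
  · exact (w i).2 q hq h3
  · exact (w j).2 q hq h3

/-- **Wide windows.** -/
theorem wide (n : ℕ) : ∃ L0 : ℕ, ∀ L, L0 ≤ L → ∀ M : ℕ → ℕ, Tendsto M atTop atTop → ∀ Q : ℕ,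
    {x : Tor | ∀ q, Q ≤ q → x ∉ UU n (strip q (M q) L)}.Finite := by
  obtain ⟨L0, hL0⟩ := two_point_wide n
  refine ⟨L0, fun L hL M hM Q => ?_⟩
  obtain ⟨K0, hK0⟩ := hL0 L hL
  obtain ⟨q0, hq0⟩ := eventually_atTop.1 ((tendsto_Kn M hM).eventually_ge_atTop K0)
  have hfin := finite_of_tp (fun q => UU n (strip q (M q) L)) (max Q q0)
    (fun q hq x y h1 h2 => hK0 (M q) q (hq0 q ((le_max_right _ _).trans hq)) x y h1 h2)
  exact hfin.subset fun x hx q hq => hx q ((le_max_left _ _).trans hq)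

end Helper58.PW
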