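import Mathlib
import Pool.Agent.Helper58.PW.Explicit
import Pool.Agent.Helper58.PW.Wide

set_option autoImplicit false
open MeasureTheory Filter Topology Finset Helper17.FU Helper17.FUGroup
open Helper91.TTT hiding Tor
open scoped ENNReal ComplexConjugate ComplexOrder InnerProductSpace

/-! The universal theorem with common thresholds. -/

namespace Helper58.PW

open Helper75.LP Helper58.DW

/-- the properties of a strip -/
theorem thresholds : ∃ (L₀ : ℕ → ℕ) (M₀ : ℕ → ℕ → ℕ),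
    (∀ n L M Q : ℕ, L₀ n ≤ L → M₀ n L ≤ M → 3 ^ M ≤ 2 ^ Q →
      (∀ x y : Tor, 1 / 2 ≤ 2 ^ Q * ‖x - y‖ → 2 ^ Q * ‖x - y‖ ≤ 1 →
        x ∈ UU n (strip Q M L) ∨ y ∈ UU n (strip Q M L)) ∧
      (∀ (x : Tor) (H : ℕ),
        ((2 ^ 2 ^ Q).factorial * 2 ^ 2 ^ Q : ℝ) < 2 ^ H * ‖(2 ^ 2 ^ Q).factorial • x‖ →
          ∃ j, j ≤ H ∧ 2 ^ j • x ∈ UU n (strip Q M L)) ∧
      (∀ x : ℝ, Irrational x → ∃ᶠ j : ℕ in atTop, 2 ^ j • (x : Tor) ∈ UU n (strip Q M L)) ∧
      ∀ η : Measure Tor, IsProbabilityMeasure η →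
        MeasurePreserving (fun x : Tor => (2 : ℕ) • x) η η →
        ∀ S : Set Tor, MeasurableSet S → (∀ x ∈ S, (2 : ℕ) • x ∈ S) →
          1 / 2 ^ 2 ^ (Q + 3) *
              ∫ x in S, (1 - (fourier (((2 ^ 2 ^ Q).factorial : ℕ) : ℤ) x : ℂ).re) ∂η ≤
            η.real (S ∩ UU n (strip Q M L))) ∧
    ∀ n L : ℕ, L₀ n ≤ L → ∀ M : ℕ → ℕ, Tendsto M atTop atTop → ∀ Q : ℕ,
      {x : Tor | ∀ q, Q ≤ q → x ∉ UU n (strip q (M q) L)}.Finite := by
  choose L1 hL1 using two_point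
  choose L2 hL2 using wide
  have h1 : ∀ n L : ℕ, ∃ M0 : ℕ, L1 n ≤ L → ∀ M, M0 ≤ M → ∀ q, ll M ≤ q →
      ∀ x y : Tor, 1 / 2 ≤ 2 ^ q * ‖x - y‖ → 2 ^ q * ‖x - y‖ ≤ 1 →
        x ∈ UU n (strip q M L) ∨ y ∈ UU n (strip q M L) := by
    intro n L
    by_cases h : L1 n ≤ L
    · obtain ⟨M0, hM0⟩ := hL1 n L h
      exact ⟨M0, fun _ => hM0⟩
    · exact ⟨0, fun h' => absurd h' h⟩
  choose M0 hM0 using h1
  refine ⟨fun n => max (L1 n) (L2 n), M0, fun n L M Q hL hM hQ => ?_, fun n L hL M hM Q => ?_⟩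
  · have hll := ll_le_of_pow hQ
    have hL' : L1 n ≤ L := (le_max_left _ _).trans hL
    have htp : ∀ q, Q ≤ q → ∀ x y : Tor, 1 / 2 ≤ 2 ^ q * ‖x - y‖ → 2 ^ q * ‖x - y‖ ≤ 1 →
        x ∈ UU n (strip q M L) ∨ y ∈ UU n (strip q M L) :=
      fun q hq => hM0 n L hL' M hM q (hll.trans hq)
    have hfirst := first_phase n M L Q hll htp
    refine ⟨htp Q le_rfl, hfirst,
      fun x hx => frequently_of_irrational (Nat.factorial_pos _) hfirst x hx,
      fun η hη h2 S hS hS2 => ?_⟩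
    exact phase_mass_set (fun μ hμ h2' => phase_mass_explicit n M L Q hll htp μ h2') h2 hS hS2
      (isOpen_UU n (strip Q M L)).measurableSet
  · exact hL2 n L ((le_max_right _ _).trans hL) M hM Q

lemma re_one_sub_nonneg (N : ℕ) (x : Tor) : 0 ≤ 1 - (fourier (N : ℤ) x : ℂ).re := by
  have h6 := Complex.abs_re_le_norm (fourier (N : ℤ) x : ℂ)
  rw [Helper58.FH.norm_fourier] at h6
  have := (abs_le.1 h6).2
  linarith

/-- positivity of the lower bound -/
theorem pos_of_noatoms {μ : Measure Tor} [IsProbabilityMeasure μ] (hna : ∀ x : Tor, μ {x} = 0)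
    (N : ℕ) (hN0 : 0 < N) {A : Set Tor} (hA : MeasurableSet A) (hApos : 0 < μ A) :
    0 < ∫ x in A, (1 - (fourier (N : ℤ) x : ℂ).re) ∂μ := by
  have hint : Integrable (fun x : Tor => 1 - (fourier (N : ℤ) x : ℂ).re) (μ.restrict A) :=
    Helper17.TranslM.integrable_cont _ (continuous_const.sub
      (Complex.continuous_re.comp (fourier (N : ℤ)).continuous))
  refine lt_of_le_of_ne (integral_nonneg fun x => re_one_sub_nonneg N x) fun h6 => ?_
  have h7 := (integral_eq_zero_iff_of_nonneg (fun x => re_one_sub_nonneg N x) hint).1 h6.symm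
  have h8 : ∀ᵐ x ∂(μ.restrict A), N • x = 0 := by
    filter_upwards [h7] with x hx
    have h9 : (fourier (N : ℤ) x : ℂ).re = 1 := by
      have : 1 - (fourier (N : ℤ) x : ℂ).re = 0 := hx
      linarith
    have h10 : ‖(fourier (N : ℤ) x : ℂ)‖ = 1 := Helper58.FH.norm_fourier _ _
    have h11 : (fourier (N : ℤ) x : ℂ) = 1 := by
      have h12 := Complex.sq_norm (fourier (N : ℤ) x : ℂ)
      rw [h10, Complex.normSq_apply, h9] at h12
      apply Complex.ext
      · exact h9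
      · simp only [Complex.one_im]
        nlinarith
    rw [fourier_apply] at h11
    have h12 : AddCircle.toCircle ((N : ℤ) • x) = AddCircle.toCircle (0 : Tor) := by
      apply Subtype.ext
      rw [h11]
      simp
    have h13 := AddCircle.injective_toCircle one_ne_zero h12
    rwa [natCast_zsmul] at h13
  have h9 : μ (A ∩ {x : Tor | N • x = 0}ᶜ) = 0 := by
    rw [ae_iff] at h8
    rw [Set.inter_comm]
    have hm : MeasurableSet {x : Tor | N • x = 0}ᶜ :=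
      (torsion_finite N hN0).measurableSet.compl
    rw [← Measure.restrict_apply hm]
    exact h8
  have h10 : μ {x : Tor | N • x = 0} = 0 :=
    null_of_countable' hna (torsion_finite N hN0).countable
  have h11 : μ A = 0 := by
    refine measure_mono_null (fun x hx => ?_) (measure_union_null h9 h10)
    by_cases hxN : N • x = 0
    · exact Or.inr hxN
    · exact Or.inl ⟨hx, hxN⟩
  exact hApos.ne' h11

/-- every invariant set is charged -/
theorem charged {μ : Measure Tor} [IsProbabilityMeasure μ] (hna : ∀ x : Tor, μ {x} = 0)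
    {S V : Set Tor} {N : ℕ} (hN0 : 0 < N) {c : ℝ} (hc : 0 < c) (hS : MeasurableSet S)
    (h : c * ∫ x in S, (1 - (fourier (N : ℤ) x : ℂ).re) ∂μ ≤ μ.real (S ∩ V)) (h0 : 0 < μ S) :
    0 < μ (S ∩ V) := by
  have h1 := pos_of_noatoms hna N hN0 hS h0
  have h2 : 0 < μ.real (S ∩ V) := lt_of_lt_of_le (mul_pos hc h1) h
  rw [pos_iff_ne_zero]
  intro h3
  rw [measureReal_def, h3, ENNReal.toReal_zero] at h2
  exact lt_irrefl _ h2

variable {s2 s3 t : Equiv.Perm ℚ}

/-- infinite conditional dimension and phases -/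
theorem dim_iff (h2 : ∀ x : ℚ, s2 x = 2 * x) (h3 : ∀ x : ℚ, s3 x = 3 * x)
    (ht : ∀ x : ℚ, t x = x + 1) {τ : GG s2 s3 t} (hτ : (τ : Equiv.Perm ℚ) = t)
    {φ : GG s2 s3 t → ℂ} (hφ : φ ∈ Set.extremePoints ℝ (TR (GG s2 s3 t)))
    {μ : Measure Tor} [IsProbabilityMeasure μ]
    (hμ : ∀ n : ℤ, ∫ x, (fourier n x : ℂ) ∂μ = φ (τ ^ n))
    (hP : MeasurePreserving (fun x : Tor => (2 : ℕ) • x) μ μ) :
    (¬ FiniteDimensional ℂ (Submodule.span ℂ {F : GG s2 s3 t → ℂ | ∃ n : GG s2 s3 t,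
        IsTr n ∧ F = fun x => φ (n * x)})) ↔
      ∀ n : ℕ, ∃ B : Finset ℕ, 0 < μ (UU n B) :=
  (dim_tfae h2 h3 ht hτ hφ hμ hP).out 0 2

end Helper58.PW
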